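import Pool.Agent.ORB.Defs

/-!
Derivatives of gates.
-/

set_option autoImplicit false

namespace Pool.Agent.ORB

open MvPolynomial

variable {K : Type*} [Field K] {n : ℕ}

/-- iterated partial derivative -/
noncomputable def pd : List (Fin n) → MvPolynomial (Fin n) K → MvPolynomial (Fin n) K
  | [], f => f
  | v :: L, f => pderiv v (pd L f)

@[simp] theorem pd_nil (f : MvPolynomial (Fin n) K) : pd [] f = f := rfl

@[simp] theorem pd_cons (v : Fin n) (L : List (Fin n)) (f : MvPolynomial (Fin n) K) :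
    pd (v :: L) f = pderiv v (pd L f) := rfl

theorem pd_zero (L : List (Fin n)) : pd L (0 : MvPolynomial (Fin n) K) = 0 := by
  induction L with
  | nil => rfl
  | cons v L ih => rw [pd_cons, ih, map_zero]

theorem pd_sum {ι : Type*} (L : List (Fin n)) (S : Finset ι) (b : ι → MvPolynomial (Fin n) K) :
    pd L (∑ l ∈ S, b l) = ∑ l ∈ S, pd L (b l) := by
  induction L with
  | nil => rfl
  | cons v L ih => simp only [pd_cons, ih, map_sum]

theorem pderiv_eq_zero {v : Fin n} {f : MvPolynomial (Fin n) K} (h : v ∉ f.vars) :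
    pderiv v f = 0 := pderiv_eq_zero_of_notMem_vars h

/-- derivatives of a polynomial which does not depend on the variables -/
theorem pd_eq_zero {V : Finset (Fin n)} {f : MvPolynomial (Fin n) K}
    (hf : ∀ v ∈ V, v ∉ f.vars) : ∀ (L : List (Fin n)), (∀ v ∈ L, v ∈ V) → L ≠ [] → pd L f = 0
  | [], _, h => absurd rfl h
  | [v], hL, _ => by
    rw [pd_cons, pd_nil]
    exact pderiv_eq_zero (hf v (hL v (by simp)))
  | v :: w :: L, hL, _ => by
    rw [pd_cons, pd_eq_zero hf (w :: L) (fun u hu => hL u (List.mem_cons_of_mem _ hu)) (by simp),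
      map_zero]

open Classical in
/-- the iterated derivatives of order at most `q` in the variables `V` of the members of `S` -/
noncomputable def DD (V : Finset (Fin n)) (S : Finset (MvPolynomial (Fin n) K)) :
    ℕ → Finset (MvPolynomial (Fin n) K)
  | 0 => S
  | q + 1 => DD V S q ∪ V.biUnion fun v => (DD V S q).image (pderiv v)

theorem DD_zero (V : Finset (Fin n)) (S : Finset (MvPolynomial (Fin n) K)) : DD V S 0 = S := rfl

theorem DD_succ [DecidableEq (MvPolynomial (Fin n) K)] (V : Finset (Fin n))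
    (S : Finset (MvPolynomial (Fin n) K)) (q : ℕ) :
    DD V S (q + 1) = DD V S q ∪ V.biUnion fun v => (DD V S q).image (pderiv v) := by
  ext f
  rw [DD]
  simp only [Finset.mem_union, Finset.mem_biUnion, Finset.mem_image]

theorem card_DD (V : Finset (Fin n)) (S : Finset (MvPolynomial (Fin n) K)) (q : ℕ) :
    (DD V S q).card ≤ (V.card + 1) ^ q * S.card := by
  classical
  induction q with
  | zero => simp [DD_zero]
  | succ q ih =>
    rw [DD_succ]
    refine (Finset.card_union_le _ _).trans ?_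
    have h1 : (V.biUnion fun v => (DD V S q).image (pderiv v)).card ≤
        V.card * ((V.card + 1) ^ q * S.card) := by
      refine Finset.card_biUnion_le.trans ?_
      calc _ ≤ ∑ _v ∈ V, (V.card + 1) ^ q * S.card := Finset.sum_le_sum fun v _ =>
            Finset.card_image_le.trans ih
        _ = _ := by simp
    calc _ ≤ (V.card + 1) ^ q * S.card + V.card * ((V.card + 1) ^ q * S.card) :=
          Nat.add_le_add ih h1
      _ = (V.card + 1) ^ (q + 1) * S.card := by ring

theorem DD_mono (V : Finset (Fin n)) (S : Finset (MvPolynomial (Fin n) K)) {q q' : ℕ}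
    (h : q ≤ q') : DD V S q ⊆ DD V S q' := by
  classical
  induction h with
  | refl => exact subset_rfl
  | step h ih =>
    rw [DD_succ]
    exact ih.trans Finset.subset_union_left

theorem pderiv_mem_DD {V : Finset (Fin n)} {S : Finset (MvPolynomial (Fin n) K)} {q : ℕ}
    {v : Fin n} (hv : v ∈ V) {f : MvPolynomial (Fin n) K} (hf : f ∈ DD V S q) :
    pderiv v f ∈ DD V S (q + 1) := by
  classical
  rw [DD_succ]
  exact Finset.mem_union_right _ (Finset.mem_biUnion.2 ⟨v, hv, Finset.mem_image_of_mem _ hf⟩)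

theorem pd_mem_DD {V : Finset (Fin n)} {S : Finset (MvPolynomial (Fin n) K)}
    {f : MvPolynomial (Fin n) K} (hf : f ∈ S) :
    ∀ (L : List (Fin n)), (∀ v ∈ L, v ∈ V) → pd L f ∈ DD V S L.length
  | [], _ => hf
  | v :: L, hL => pderiv_mem_DD (hL v (by simp))
      (pd_mem_DD hf L fun u hu => hL u (List.mem_cons_of_mem _ hu))

/-- members of `DD` are derivatives -/
theorem exists_of_mem_DD {V : Finset (Fin n)} {S : Finset (MvPolynomial (Fin n) K)} {q : ℕ}
    {f : MvPolynomial (Fin n) K} (hf : f ∈ DD V S q) :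
    ∃ L : List (Fin n), L.length ≤ q ∧ ∃ b ∈ S, f = pd L b := by
  classical
  induction q generalizing f with
  | zero => exact ⟨[], le_rfl, f, hf, rfl⟩
  | succ q ih =>
    rw [DD_succ, Finset.mem_union] at hf
    rcases hf with hf | hf
    · obtain ⟨L, h1, h2⟩ := ih hf
      exact ⟨L, by omega, h2⟩
    · rw [Finset.mem_biUnion] at hf
      obtain ⟨v, _, hf⟩ := hf
      rw [Finset.mem_image] at hf
      obtain ⟨g, hg, rfl⟩ := hf
      obtain ⟨L, h1, b, hb, rfl⟩ := ih hg
      exact ⟨v :: L, by simpa using h1, b, hb, rfl⟩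

/-- derivatives of elements of the algebra generated by `DD` -/
theorem pderiv_mem_adjoin {V : Finset (Fin n)} {S : Finset (MvPolynomial (Fin n) K)} {q : ℕ}
    {v : Fin n} (hv : v ∈ V) {Q : MvPolynomial (Fin n) K}
    (hQ : Q ∈ Algebra.adjoin K (DD V S q : Set (MvPolynomial (Fin n) K))) :
    pderiv v Q ∈ Algebra.adjoin K (DD V S (q + 1) : Set (MvPolynomial (Fin n) K)) := by
  have hle : Algebra.adjoin K (DD V S q : Set (MvPolynomial (Fin n) K)) ≤
      Algebra.adjoin K (DD V S (q + 1) : Set (MvPolynomial (Fin n) K)) :=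
    Algebra.adjoin_mono (by exact_mod_cast DD_mono V S (Nat.le_succ q))
  induction hQ using Algebra.adjoin_induction with
  | mem f hf => exact Algebra.subset_adjoin (by exact_mod_cast pderiv_mem_DD hv (by exact_mod_cast hf))
  | algebraMap r => rw [algebraMap_eq, pderiv_C]; exact Subalgebra.zero_mem _
  | add f g hf hg ihf ihg => rw [map_add]; exact Subalgebra.add_mem _ ihf ihg
  | mul f g hf hg ihf ihg =>
    rw [Derivation.leibniz, smul_eq_mul, smul_eq_mul]
    exact Subalgebra.add_mem _ (Subalgebra.mul_mem _ (hle hf) ihg)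
      (Subalgebra.mul_mem _ (hle hg) ihf)

/-- `x` and its derivative are multiples of `x'` by elements of the algebra -/
def W (𝒬 : Subalgebra K (MvPolynomial (Fin n) K)) (v : Fin n)
    (x' x : MvPolynomial (Fin n) K) : Prop :=
  (∃ Q ∈ 𝒬, x = x' * Q) ∧ ∃ Q ∈ 𝒬, pderiv v x = x' * Q

theorem W.mul {𝒬 : Subalgebra K (MvPolynomial (Fin n) K)} {v : Fin n}
    {x' x y' y : MvPolynomial (Fin n) K} (hx : W 𝒬 v x' x) (hy : W 𝒬 v y' y) :
    W 𝒬 v (x' * y') (x * y) := by
  obtain ⟨⟨a, ha, hxa⟩, b, hb, hxb⟩ := hx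
  obtain ⟨⟨c, hc, hyc⟩, d, hd, hyd⟩ := hy
  refine ⟨⟨a * c, Subalgebra.mul_mem _ ha hc, by rw [hxa, hyc]; ring⟩,
    a * d + c * b, Subalgebra.add_mem _ (Subalgebra.mul_mem _ ha hd) (Subalgebra.mul_mem _ hc hb),
    ?_⟩
  rw [Derivation.leibniz, smul_eq_mul, smul_eq_mul, hxb, hyd]
  nth_rewrite 1 [hxa]
  nth_rewrite 1 [hyc]
  ring

theorem W.one {𝒬 : Subalgebra K (MvPolynomial (Fin n) K)} {v : Fin n} :
    W 𝒬 v 1 (1 : MvPolynomial (Fin n) K) :=
  ⟨⟨1, Subalgebra.one_mem _, by ring⟩, 0, Subalgebra.zero_mem _, by simp⟩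

theorem W.prod {𝒬 : Subalgebra K (MvPolynomial (Fin n) K)} {v : Fin n} {ι : Type*}
    (S : Finset ι) (x' x : ι → MvPolynomial (Fin n) K) (h : ∀ l ∈ S, W 𝒬 v (x' l) (x l)) :
    W 𝒬 v (∏ l ∈ S, x' l) (∏ l ∈ S, x l) := by
  classical
  induction S using Finset.induction_on with
  | empty => simpa using W.one
  | insert a S ha ih =>
    rw [Finset.prod_insert ha, Finset.prod_insert ha]
    exact (h a (Finset.mem_insert_self _ _)).mul (ih fun l hl => h l (Finset.mem_insert_of_mem hl))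

theorem W.pow {𝒬 : Subalgebra K (MvPolynomial (Fin n) K)} {v : Fin n}
    {b : MvPolynomial (Fin n) K} (hb : b ∈ 𝒬) (hb' : pderiv v b ∈ 𝒬) (a : ℕ) :
    W 𝒬 v (b ^ (a - 1)) (b ^ a) := by
  rcases a with _ | a
  · simpa using W.one
  · refine ⟨⟨b, hb, by rw [Nat.add_sub_cancel, pow_succ]⟩, C ((a + 1 : ℕ) : K) * pderiv v b, ?_, ?_⟩
    · rw [← algebraMap_eq]
      exact Subalgebra.mul_mem _ (Subalgebra.algebraMap_mem _ _) hb'
    · rw [Derivation.leibniz_pow, Nat.add_sub_cancel, smul_eq_mul, nsmul_eq_mul, map_natCast]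
      ring

theorem W.of_zero {𝒬 : Subalgebra K (MvPolynomial (Fin n) K)} {v : Fin n}
    {x : MvPolynomial (Fin n) K} (h : pderiv v x = 0) : W 𝒬 v x x :=
  ⟨⟨1, Subalgebra.one_mem _, by ring⟩, 0, Subalgebra.zero_mem _, by rw [h]; ring⟩

theorem pderiv_prod_pow_eq_zero {ι : Type*} (S : Finset ι) (b : ι → MvPolynomial (Fin n) K)
    (e : ι → ℕ) {v : Fin n} (h : ∀ l ∈ S, v ∉ (b l).vars) :
    pderiv v (∏ l ∈ S, b l ^ e l) = 0 := by
  classical
  induction S using Finset.induction_on with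
  | empty => simp
  | insert a S ha ih =>
    rw [Finset.prod_insert ha, Derivation.leibniz, ih fun l hl => h l (Finset.mem_insert_of_mem hl),
      Derivation.leibniz_pow, pderiv_eq_zero (h a (Finset.mem_insert_self _ _))]
    simp

/-- **derivatives of products of powers** -/
theorem pd_prod {m : ℕ} (b : Fin m → MvPolynomial (Fin n) K) (e : Fin m → ℕ)
    (V : Finset (Fin n)) (S : Finset (Fin m)) (hS : ∀ l, l ∉ S → ∀ v ∈ V, v ∉ (b l).vars)
    [DecidableEq (MvPolynomial (Fin n) K)] :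
    ∀ (L : List (Fin n)), (∀ v ∈ L, v ∈ V) →
      ∃ Q ∈ Algebra.adjoin K (DD V (S.image b) L.length : Set (MvPolynomial (Fin n) K)),
        pd L (∏ l, b l ^ e l) =
          ((∏ l ∈ Sᶜ, b l ^ e l) * ∏ l ∈ S, b l ^ (e l - L.length)) * Q
  | [], _ => ⟨1, Subalgebra.one_mem _, by
      simp only [pd_nil, List.length_nil, Nat.sub_zero, mul_one]
      rw [mul_comm, Finset.prod_mul_prod_compl]⟩
  | v :: L, hL => by
    have hv : v ∈ V := hL v (by simp)
    obtain ⟨Q, hQ, hQe⟩ := pd_prod b e V S hS L fun u hu => hL u (List.mem_cons_of_mem _ hu)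
    set 𝒬 := Algebra.adjoin K (DD V (S.image b) (v :: L).length : Set (MvPolynomial (Fin n) K))
      with h𝒬
    have hle : Algebra.adjoin K (DD V (S.image b) L.length : Set (MvPolynomial (Fin n) K)) ≤ 𝒬 :=
      Algebra.adjoin_mono (by exact_mod_cast DD_mono V _ (by simp))
    have hb : ∀ l ∈ S, b l ∈ 𝒬 := fun l hl => Algebra.subset_adjoin (by
      exact_mod_cast DD_mono V (S.image b) (Nat.zero_le _) (Finset.mem_image_of_mem b hl))
    have hb' : ∀ l ∈ S, pderiv v (b l) ∈ 𝒬 := fun l hl => Algebra.subset_adjoin (by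
      have h1 : pderiv v (b l) ∈ DD V (S.image b) (0 + 1) :=
        pderiv_mem_DD hv (Finset.mem_image_of_mem b hl)
      exact_mod_cast DD_mono V (S.image b) (by simp) h1)
    have h1 : W 𝒬 v (∏ l ∈ Sᶜ, b l ^ e l) (∏ l ∈ Sᶜ, b l ^ e l) :=
      W.of_zero (pderiv_prod_pow_eq_zero _ _ _ fun l hl => hS l (by simpa using hl) v hv)
    have h2 : W 𝒬 v (∏ l ∈ S, b l ^ (e l - L.length - 1)) (∏ l ∈ S, b l ^ (e l - L.length)) :=
      W.prod _ _ _ fun l hl => W.pow (hb l hl) (hb' l hl) _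
    have h3 : W 𝒬 v 1 Q := ⟨⟨Q, hle hQ, by ring⟩, pderiv v Q, pderiv_mem_adjoin hv hQ, by ring⟩
    obtain ⟨Q', hQ', hQe'⟩ := ((h1.mul h2).mul h3).2
    refine ⟨Q', hQ', ?_⟩
    rw [pd_cons, hQe, hQe', mul_one]
    simp only [List.length_cons, Nat.sub_sub]

/-- **derivatives of sums** -/
theorem pd_sum_live {m : ℕ} (b : Fin m → MvPolynomial (Fin n) K)
    (V : Finset (Fin n)) (S : Finset (Fin m)) (hS : ∀ l, l ∉ S → ∀ v ∈ V, v ∉ (b l).vars)
    [DecidableEq (MvPolynomial (Fin n) K)] (L : List (Fin n)) (hL : ∀ v ∈ L, v ∈ V)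
    (hne : L ≠ []) :
    pd L (∑ l, b l) ∈ Algebra.adjoin K (DD V (S.image b) L.length : Set (MvPolynomial (Fin n) K)) := by
  rw [pd_sum, ← Finset.sum_subset (Finset.subset_univ S)]
  · exact Subalgebra.sum_mem _ fun l hl => Algebra.subset_adjoin (by
      exact_mod_cast pd_mem_DD (Finset.mem_image_of_mem b hl) L hL)
  · intro l _ hl
    exact pd_eq_zero (hS l hl) L hL hne

end Pool.Agent.ORB
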