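import Pool.Agent.ORB.H1

/-!
# ORB: Jacobian minors of formulas of bounded depth and bounded occurrence
-/

set_option autoImplicit false

namespace Pool.Agent.ORB

open MvPolynomial

variable {K : Type*} [Field K] {n : ℕ}

/-- the class of polynomials computed by formulas of depth `Δ` -/
def F (κ : ℕ) (𝓛 : Set (MvPolynomial (Fin n) K)) (Δ : ℕ) : Set (MvPolynomial (Fin n) K) :=
  {f | OccFormula κ (fun g => g ∈ 𝓛) Δ f}

theorem F_zero {κ : ℕ} {𝓛 : Set (MvPolynomial (Fin n) K)} : F κ 𝓛 0 = 𝓛 := by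
  ext f
  constructor
  · intro h
    cases h with
    | leaf h => exact h
  · intro h
    exact OccFormula.leaf h

theorem F_succ {κ Δ : ℕ} {𝓛 : Set (MvPolynomial (Fin n) K)} :
    F κ 𝓛 (Δ + 1) = Gate κ (F κ 𝓛 Δ) := by
  ext f
  constructor
  · intro h
    cases h with
    | sum b hb hκ => exact ⟨_, b, hb, Or.inl ⟨hκ, Or.inl rfl⟩⟩
    | prod b hb hκ e => exact ⟨_, b, hb, Or.inl ⟨hκ, Or.inr ⟨e, rfl⟩⟩⟩
    | comp b hb hm p => exact ⟨_, b, hb, Or.inr ⟨hm, p, rfl⟩⟩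
  · rintro ⟨m, b, hb, ⟨hκ, rfl | ⟨e, rfl⟩⟩ | ⟨hm, p, rfl⟩⟩
    · exact OccFormula.sum b hb hκ
    · exact OccFormula.prod b hb hκ e
    · exact OccFormula.comp b hb hm p

theorem mSeq_succ (κ k j : ℕ) : mSeq κ k (j + 1) = nRows κ (mSeq κ k j) j := by
  simp only [mSeq, nRows]
  ring

variable {σ : Type*} [CharZero K]

theorem occ_H1_aux {gp : Fin n → Polynomial K} (hgp : LinearIndependent K gp)
    {γ : Fin n → MvPolynomial σ K} {κ k : ℕ} {𝓛 : Set (MvPolynomial (Fin n) K)} :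
    ∀ (d i : ℕ), H1 gp γ 0 (Dc 𝓛 (i + d)) (mSeq κ k (i + d)) →
      H1 gp γ (∑ j ∈ Finset.range d, mSeq κ k (i + 1 + j)) (Dc (F κ 𝓛 d) i) (mSeq κ k i)
  | 0, i, h => by
    rw [F_zero]
    exact h
  | d + 1, i, h => by
    have e : i + (d + 1) = i + 1 + d := by omega
    rw [e] at h
    have h1 := occ_H1_aux hgp d (i + 1) h
    rw [mSeq_succ] at h1
    have h2 := gate_H1 hgp h1
    rw [F_succ]
    have h3 : ∑ j ∈ Finset.range (d + 1), mSeq κ k (i + 1 + j) =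
        ∑ j ∈ Finset.range d, mSeq κ k (i + 1 + 1 + j) + nRows κ (mSeq κ k i) i := by
      rw [Finset.sum_range_succ', ← mSeq_succ]
      congr 1
      exact Finset.sum_congr rfl fun j _ => by congr 1; omega
    rw [h3]
    exact h2

/-- **Jacobian minors of formulas of bounded depth and bounded occurrence** -/
theorem occ_H1 {gp : Fin n → Polynomial K} (hgp : LinearIndependent K gp)
    {γ : Fin n → MvPolynomial σ K} {κ k Δ : ℕ} {𝓛 : Set (MvPolynomial (Fin n) K)}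
    (h : H1 gp γ 0 (Dc 𝓛 Δ) (mSeq κ k Δ)) :
    H1 gp γ (∑ j ∈ Finset.range Δ, mSeq κ k (j + 1)) (Dc (F κ 𝓛 Δ) 0) k := by
  have h1 := occ_H1_aux (κ := κ) (k := k) hgp Δ 0 (by rw [Nat.zero_add]; exact h)
  have h2 : ∑ j ∈ Finset.range Δ, mSeq κ k (0 + 1 + j) = ∑ j ∈ Finset.range Δ, mSeq κ k (j + 1) :=
    Finset.sum_congr rfl fun j _ => by congr 1; omega
  rw [h2] at h1
  exact h1

/-- **Closure theorem.** -/
theorem occ_hit {gp : Fin n → Polynomial K} (hgp : LinearIndependent K gp)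
    {γ : Fin n → MvPolynomial σ K} {κ k Δ : ℕ} {𝓛 : Set (MvPolynomial (Fin n) K)}
    (h : H1 gp γ 0 (Dc 𝓛 Δ) (mSeq κ k Δ)) {N : ℕ} (T : Fin N → MvPolynomial (Fin n) K)
    (hT : ∀ i, OccFormula κ (fun g => g ∈ 𝓛) Δ (T i))
    (htr : ∀ c : Finset (Fin N), AlgebraicIndepOn K T (c : Set (Fin N)) → c.card ≤ k)
    (g : MvPolynomial (Fin n) K) (hg : IsAlgebraic (Algebra.adjoin K (Set.range T)) g)
    (hg0 : g ≠ 0) : PhiP gp γ (seeds κ k Δ) g ≠ 0 := by
  have h1 := occ_H1 hgp h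
  have h2 : seeds κ k Δ = ∑ j ∈ Finset.range Δ, mSeq κ k (j + 1) + k := by
    unfold seeds
    rw [Finset.sum_range_succ']
    rfl
  rw [h2]
  apply PhiP_PhiP
  refine PhiP_faith gp hgp _ k T htr ?_ g hg hg0
  intro M hM e J hdet
  rw [aeval_PhiP_X]
  exact h1 M hM _ (fun i => ⟨[], Nat.zero_le _, T (e i), hT _, rfl⟩) J hdet

end Pool.Agent.ORB
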