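import Pool.Agent.Helper5.D4.Jac2

/-!
# ORB: a maximal minor survives at points of independent curves
-/

set_option autoImplicit false

namespace Pool.Agent.ORB

private theorem cas_span {K : Type*} [Field K] [Infinite K] {n : ℕ} (p : Fin n → Polynomial K)
    (hp : LinearIndependent K p) :
    Submodule.span K (Set.range fun w : K => (fun v : Fin n => (p v).eval w : Fin n → K)) = ⊤ := by
  classical
  by_contra hne
  obtain ⟨f, hf0, hf⟩ := Submodule.exists_le_ker_of_lt_top _ (lt_top_iff_ne_top.2 hne)
  apply hf0
  have h1 : ∀ x : Fin n → K, f x = ∑ v, x v * f (Pi.single v 1) := by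
    intro x
    conv_lhs => rw [← Finset.univ_sum_single x, map_sum]
    refine Finset.sum_congr rfl fun v _ => ?_
    have h2 : (Pi.single v (x v) : Fin n → K) = x v • Pi.single v 1 := by
      rw [← Pi.single_smul, smul_eq_mul, mul_one]
    rw [h2, map_smul, smul_eq_mul]
  have h3 : ∑ v, f (Pi.single v 1) • p v = 0 := by
    apply Polynomial.funext
    intro w
    rw [Polynomial.eval_finsetSum, Polynomial.eval_zero]
    have h4 : f (fun v => (p v).eval w) = 0 := by
      have h5 := hf (Submodule.subset_span ⟨w, rfl⟩)
      exact h5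
    rw [h1] at h4
    rw [← h4]
    refine Finset.sum_congr rfl fun v _ => ?_
    rw [Polynomial.eval_smul, smul_eq_mul, mul_comm]
  have h6 := Fintype.linearIndependent_iff.1 hp _ h3
  apply LinearMap.ext
  intro x
  rw [h1, LinearMap.zero_apply]
  exact Finset.sum_eq_zero fun v _ => by rw [h6 v, mul_zero]

private theorem cas_pts {K : Type*} [Field K] [Infinite K] {n : ℕ} (p : Fin n → Polynomial K)
    (hp : LinearIndependent K p) :
    ∃ w : Fin n → K, IsUnit (Matrix.of fun v l : Fin n => (p v).eval (w l)) := by
  classical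
  obtain ⟨κ, a, ha, hs, hi⟩ := exists_linearIndependent' K
    (fun w : K => (fun v : Fin n => (p v).eval w : Fin n → K))
  rw [cas_span p hp] at hs
  have hfin : Finite κ := hi.finite
  have := Fintype.ofFinite κ
  have hcard : Fintype.card κ = n := by
    have h1 := finrank_span_eq_card hi
    rw [hs, finrank_top] at h1
    simpa using h1.symm
  obtain ⟨e, -⟩ : ∃ e : Fin n ≃ κ, e = (Fintype.equivFinOfCardEq hcard).symm := ⟨_, rfl⟩
  refine ⟨a ∘ e, ?_⟩
  rw [← Matrix.linearIndependent_cols_iff_isUnit]
  exact hi.comp _ e.injective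

/- PLAN. (1) The vectors `φ(w) = (p_v(w))_v : Fin n → K`, `w : K`, span `Fin n → K`: otherwise there
is `c ≠ 0` with `∑ c_v p_v(w) = 0` for all `w` (e.g. `Submodule.exists_dual_forall_apply_eq_zero_iff`
or `Submodule.exists_le_ker_of_lt_top`), so `∑ C c_v * p_v = 0` (`Polynomial.funext`, `K` infinite),
against `hp`.  (2) So there are `w' : Fin n → K` with `Φ = (p_v(w'_l))_{v,l}` invertible (choose a
basis in the spanning set, `exists_linearIndependent'`; or `exists_minor_of_rows`).
(3) Over `F = FractionRing B` the rows of `R.map` are independent (`R.submatrix id J` is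
invertible) and `Φ` is invertible, so the rows of `R * Φ` are independent and
`Pool.Agent.Helper5.D4.exists_minor_of_rows` gives `J' : Fin r → Fin n` with nonzero minor of
`R * Φ`; take `w = w' ∘ J'`. Go back to `B` with `RingHom.map_det` and injectivity. -/
theorem casorati {K B : Type*} [Field K] [Infinite K] [CommRing B] [IsDomain B] [Algebra K B]
    {r n : ℕ} (R : Matrix (Fin r) (Fin n) B) (J : Fin r → Fin n)
    (hJ : (R.submatrix id J).det ≠ 0) (p : Fin n → Polynomial K) (hp : LinearIndependent K p) :
    ∃ w : Fin r → K,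
      (Matrix.of fun i l => ∑ v, R i v * algebraMap K B ((p v).eval (w l))).det ≠ 0 := by
  classical
  obtain ⟨w, hw⟩ := cas_pts p hp
  obtain ⟨g, hg⟩ : ∃ g : B →+* FractionRing B, g = algebraMap B (FractionRing B) := ⟨_, rfl⟩
  have hginj : Function.Injective g := by
    rw [hg]
    exact IsFractionRing.injective B (FractionRing B)
  obtain ⟨P, hP⟩ : ∃ P : Matrix (Fin n) (Fin n) (FractionRing B),
      P = ((Matrix.of fun v l : Fin n => (p v).eval (w l)).map (algebraMap K B)).map g := ⟨_, rfl⟩
  have hPu : IsUnit P := by
    have h1 : IsUnit (((Matrix.of fun v l : Fin n => (p v).eval (w l)).map (algebraMap K B)).map g).det := by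
      rw [← RingHom.mapMatrix_apply, ← RingHom.mapMatrix_apply, ← RingHom.map_det, ← RingHom.map_det]
      exact ((((Matrix.isUnit_iff_isUnit_det _).1 hw).map (algebraMap K B)).map g)
    rw [hP]
    exact (Matrix.isUnit_iff_isUnit_det _).2 h1
  have hrows : LinearIndependent (FractionRing B) (R.map g).row := by
    have h1 : LinearIndependent (FractionRing B) ((R.map g).submatrix id J).row := by
      have h2 : (R.map g).submatrix id J = (R.submatrix id J).map g := rfl
      have h4 : ((R.map g).submatrix id J).det ≠ 0 := by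
        rw [h2, ← RingHom.mapMatrix_apply, ← RingHom.map_det]
        exact fun h3 => hJ (hginj (by rw [h3, map_zero]))
      exact Matrix.linearIndependent_rows_of_det_ne_zero h4
    exact LinearIndependent.of_comp (LinearMap.funLeft (FractionRing B) (FractionRing B) J) h1
  have hrows2 : LinearIndependent (FractionRing B) (R.map g * P).row := by
    have h1 := hrows.map' P.vecMulLinear (by
      rw [LinearMap.ker_eq_bot]
      exact Matrix.vecMul_injective_of_isUnit hPu)
    exact h1
  obtain ⟨J', hJ'⟩ := Pool.Agent.Helper5.D4.exists_minor_of_rows (R.map g * P) hrows2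
  refine ⟨w ∘ J', fun h0 => hJ' ?_⟩
  have h1 : (R.map g * P).submatrix id J' =
      (Matrix.of fun i l => ∑ v, R i v * algebraMap K B ((p v).eval ((w ∘ J') l))).map g := by
    ext i l
    rw [Matrix.submatrix_apply, Matrix.mul_apply, Matrix.map_apply, Matrix.of_apply, map_sum, hP]
    refine Finset.sum_congr rfl fun v _ => ?_
    rw [map_mul]
    rfl
  rw [h1, ← RingHom.mapMatrix_apply, ← RingHom.map_det, h0, map_zero]

end Pool.Agent.ORB
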