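import Pool.Agent.ORB.Gen
import Pool.Agent.ORB.Cas
import Pool.Agent.Helper5.D4.Faithful
import Pool.Agent.Helper5.D4.GenInj
import Pool.Agent.Helper5.D4.Jac2

/-!
# ORB: the generator with `r` seeds keeps `r` polynomials independent
-/

set_option autoImplicit false

namespace Pool.Agent.ORB

open MvPolynomial Pool.Agent.Helper5.D4

variable {K : Type*} [Field K] [CharZero K] {n : ℕ} {σ : Type*}

theorem derivation_polynomial {τ : Type*} (D : Derivation K (MvPolynomial τ K) (MvPolynomial τ K))
    (x : MvPolynomial τ K) (hx : D x = 0) (q : Polynomial K) : D (Polynomial.aeval x q) = 0 := by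
  induction q using Polynomial.induction_on' with
  | add p q hp hq => rw [map_add, map_add, hp, hq, add_zero]
  | monomial m a =>
    rw [Polynomial.aeval_monomial, Derivation.leibniz, Derivation.leibniz_pow, hx, smul_zero,
      smul_zero, Derivation.map_algebraMap, smul_zero, smul_zero, add_zero]

theorem pderiv_rename_of_notMem {τ τ' : Type*} (f : τ → τ') (j : τ') (hj : ∀ i, f i ≠ j)
    (q : MvPolynomial τ K) : pderiv j (rename f q) = 0 := by
  classical
  induction q using MvPolynomial.induction_on with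
  | C a => rw [rename_C, pderiv_C]
  | add p q hp hq => rw [map_add, map_add, hp, hq, add_zero]
  | mul_X p i hp =>
    rw [map_mul, rename_X, Derivation.leibniz, hp, smul_zero, add_zero, pderiv_X,
      Pi.single_eq_of_ne (hj i), smul_zero]

theorem pderiv_PhiP_X (p : Fin n → Polynomial K) (γ : Fin n → MvPolynomial σ K) {r : ℕ}
    (l : Fin r) (v : Fin n) :
    pderiv (Sum.inr (Sum.inl l) : σ ⊕ (Fin r ⊕ Fin r)) (PhiP p γ r (X v)) =
      Polynomial.aeval (X (Sum.inr (Sum.inr l)) : MvPolynomial (σ ⊕ (Fin r ⊕ Fin r)) K) (p v) := by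
  classical
  rw [PhiP, aeval_X, map_add, map_sum, pderiv_rename_of_notMem _ _ (fun i => by simp), zero_add,
    Finset.sum_eq_single l]
  · rw [Derivation.leibniz, derivation_polynomial _ _ (by
      rw [pderiv_X, Pi.single_eq_of_ne (by simp)]), smul_zero, zero_add, pderiv_X_self, smul_eq_mul,
      mul_one]
  · intro l' _ hl'
    rw [Derivation.leibniz, derivation_polynomial _ _ (by
      rw [pderiv_X, Pi.single_eq_of_ne (by simp)]), smul_zero, zero_add, pderiv_X,
      Pi.single_eq_of_ne (by simpa using hl'), smul_zero]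
  · intro h
    exact absurd (Finset.mem_univ _) h

theorem algInd_PhiP (p : Fin n → Polynomial K) (hp : LinearIndependent K p)
    (γ : Fin n → MvPolynomial σ K) {r : ℕ} (T : Fin r → MvPolynomial (Fin n) K) (J : Fin r → Fin n)
    (h : aeval γ (Matrix.of fun i j => pderiv (J j) (T i)).det ≠ 0) :
    AlgebraicIndependent K (fun i => PhiP p γ r (T i)) := by
  classical
  obtain ⟨w, hw⟩ := casorati (K := K) (B := MvPolynomial σ K)
    (Matrix.of fun i v => aeval γ (pderiv v (T i))) J (by
      rw [AlgHom.map_det] at h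
      exact h) p hp
  refine algebraicIndependent_of_det (L := MvPolynomial (σ ⊕ (Fin r ⊕ Fin r)) K)
    (fun l : Fin r => pderiv (Sum.inr (Sum.inl l))) _ ?_
  have h1 : (Matrix.of fun i j => pderiv (Sum.inr (Sum.inl j) : σ ⊕ (Fin r ⊕ Fin r))
      (PhiP p γ r (T i))) = Matrix.of fun i j => ∑ v, PhiP p γ r (pderiv v (T i)) *
        Polynomial.aeval (X (Sum.inr (Sum.inr j)) : MvPolynomial (σ ⊕ (Fin r ⊕ Fin r)) K)
          (p v) := by
    ext1 i j
    rw [Matrix.of_apply, Matrix.of_apply]
    have h2 := chain_rule (pderiv (Sum.inr (Sum.inl j) : σ ⊕ (Fin r ⊕ Fin r)))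
      (fun v => PhiP p γ r (X v)) (T i)
    rw [aeval_PhiP_X] at h2
    rw [h2]
    refine Finset.sum_congr rfl fun v _ => ?_
    rw [aeval_PhiP_X, pderiv_PhiP_X]
  rw [h1]
  intro h0
  apply hw
  set ψ : MvPolynomial (σ ⊕ (Fin r ⊕ Fin r)) K →ₐ[K] MvPolynomial σ K :=
    aeval (Sum.elim X (Sum.elim (fun _ => 0) fun l => C (w l))) with hψ
  have h3 : ψ.comp (PhiP p γ r) = aeval γ := by
    apply MvPolynomial.algHom_ext
    intro v
    rw [AlgHom.comp_apply, PhiP, aeval_X, map_add, map_sum, aeval_X, hψ, aeval_rename]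
    have h4 : (Sum.elim (X : σ → MvPolynomial σ K)
        (Sum.elim (fun _ : Fin r => (0 : MvPolynomial σ K)) fun l => C (w l))) ∘ Sum.inl = X := by
      funext i
      rfl
    rw [h4, aeval_X_left, AlgHom.id_apply]
    rw [Finset.sum_eq_zero, add_zero]
    intro l _
    rw [map_mul, aeval_X, Sum.elim_inr, Sum.elim_inl, zero_mul]
  have h5 := congrArg ψ h0
  rw [map_zero, AlgHom.map_det] at h5
  rw [← h5]
  congr 1
  ext1 i j
  rw [Matrix.of_apply, AlgHom.mapMatrix_apply, Matrix.map_apply, Matrix.of_apply, map_sum]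
  refine Finset.sum_congr rfl fun v _ => ?_
  rw [map_mul, Matrix.of_apply]
  congr 1
  · rw [← AlgHom.comp_apply, h3]
  · rw [← Polynomial.aeval_algHom_apply, hψ, aeval_X, Sum.elim_inr, Sum.elim_inr,
      ← MvPolynomial.algebraMap_eq, Polynomial.aeval_algebraMap_apply, Polynomial.coe_aeval_eq_eval]

end Pool.Agent.ORB
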