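import Pool.Agent.ORB.GridA

/-!
# ORB: small values of the parameters
-/

set_option autoImplicit false

namespace Pool.Agent.ORB

open MvPolynomial

variable {K : Type*} [Field K] [CharZero K] {n : ℕ}

private theorem totalDegree_aeval_le' {σ τ : Type*} [Fintype σ] (g : σ → MvPolynomial τ K) (e : ℕ)
    (hg : ∀ i, (g i).totalDegree ≤ e) (f : MvPolynomial σ K) :
    (aeval g f).totalDegree ≤ f.totalDegree * e := by
  rw [aeval_def, eval₂_eq']
  refine (totalDegree_finsetSum_le fun d hd => ?_)
  have h1 : ∑ i, d i ≤ f.totalDegree := by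
    have := le_totalDegree hd
    rwa [Finsupp.sum_fintype _ _ (fun _ => rfl)] at this
  calc (algebraMap K (MvPolynomial τ K) (f.coeff d) * ∏ i, g i ^ d i).totalDegree
      ≤ (algebraMap K (MvPolynomial τ K) (f.coeff d)).totalDegree + (∏ i, g i ^ d i).totalDegree :=
        totalDegree_mul _ _
    _ = (∏ i, g i ^ d i).totalDegree := by rw [algebraMap_eq, totalDegree_C, zero_add]
    _ ≤ ∑ i, (g i ^ d i).totalDegree := totalDegree_finset_prod _ _
    _ ≤ ∑ i, d i * e := Finset.sum_le_sum fun i _ =>
        (totalDegree_pow _ _).trans (Nat.mul_le_mul_left _ (hg i))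
    _ = (∑ i, d i) * e := by rw [Finset.sum_mul]
    _ ≤ f.totalDegree * e := Nat.mul_le_mul_right _ h1

private theorem totalDegree_paeval_X_le {τ : Type*} (c : τ) (q : Polynomial K) :
    (Polynomial.aeval (X c : MvPolynomial τ K) q).totalDegree ≤ q.natDegree := by
  rw [Polynomial.aeval_eq_sum_range]
  refine totalDegree_finsetSum_le fun i hi => ?_
  refine (totalDegree_smul_le _ _).trans ?_
  rw [totalDegree_X_pow]
  have := Finset.mem_range.1 hi
  omega

private theorem cv_natDegree_le (M i : ℕ) : (cv K M i).natDegree ≤ M := by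
  unfold cv
  refine Polynomial.natDegree_sum_le_of_forall_le _ _ fun r hr => ?_
  refine (Polynomial.natDegree_C_mul_X_pow_le _ _).trans ?_
  exact (Finset.mem_Icc.1 hr).2

private theorem xpar_totalDegree_le (M E : ℕ) (i : Fin n) : (xpar K n M E i).totalDegree ≤ M + 1 := by
  have h0 : ∀ c : Fin 3 ⊕ (Fin E ⊕ Fin E), (Polynomial.aeval
      (X c : MvPolynomial (Fin 3 ⊕ (Fin E ⊕ Fin E)) K) (cv K M (i + 1))).totalDegree ≤ M :=
    fun c => (totalDegree_paeval_X_le c _).trans (cv_natDegree_le M _)
  have h1 : ∀ c c' : Fin 3 ⊕ (Fin E ⊕ Fin E), (X c' * Polynomial.aeval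
      (X c : MvPolynomial (Fin 3 ⊕ (Fin E ⊕ Fin E)) K) (cv K M (i + 1))).totalDegree ≤ M + 1 := by
    intro c c'
    refine (totalDegree_mul _ _).trans ?_
    rw [totalDegree_X]
    have := h0 c
    omega
  unfold xpar
  refine (totalDegree_add _ _).trans (max_le ((totalDegree_add _ _).trans (max_le ?_ ?_)) ?_)
  · exact (h0 _).trans (Nat.le_succ M)
  · exact h1 _ _
  · exact totalDegree_finsetSum_le fun l _ => h1 _ _

private theorem eval_paeval {τ : Type*} (x : τ → K) (c : τ) (q : Polynomial K) :
    eval x (Polynomial.aeval (X c : MvPolynomial τ K) q) = q.eval (x c) := by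
  have h1 : eval x (Polynomial.aeval (X c : MvPolynomial τ K) q) =
      MvPolynomial.aeval x (Polynomial.aeval (X c : MvPolynomial τ K) q) :=
    (DFunLike.congr_fun (MvPolynomial.coe_aeval_eq_eval x) _).symm
  rw [h1, ← Polynomial.aeval_algHom_apply, MvPolynomial.aeval_X, Polynomial.coe_aeval_eq_eval]

private theorem eval_xpar (M E : ℕ) (a : Fin 3 ⊕ (Fin E ⊕ Fin E) → ℕ) (i : Fin n) :
    eval (fun c => (a c : K)) (xpar K n M E i) =
      ((point n M E (fun c => a (Sum.inl c)) (fun l => a (Sum.inr (Sum.inl l)))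
        (fun l => a (Sum.inr (Sum.inr l))) i : ℕ) : K) := by
  unfold xpar point
  simp only [map_add, map_mul, map_sum, eval_X, eval_paeval, cv_eval]
  push_cast
  rfl

private theorem mem_hittingSet' (M E R : ℕ) (a : Fin 3 → ℕ) (z w : Fin E → ℕ)
    (ha : ∀ c, a c ∈ Finset.range (R + 1)) (hz : ∀ c, z c ∈ Finset.range (R + 1))
    (hw : ∀ c, w c ∈ Finset.range (R + 1)) : point n M E a z w ∈ hittingSet n M E R := by
  unfold hittingSet
  rw [Finset.mem_image]
  refine ⟨(a, z, w), ?_, rfl⟩
  rw [Finset.mem_product, Finset.mem_product]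
  exact ⟨Fintype.mem_piFinset.2 ha, Fintype.mem_piFinset.2 hz, Fintype.mem_piFinset.2 hw⟩

/- PLAN. `aeval (xpar K n M E) f` is a nonzero polynomial of total degree at most `D (M + 1)` (each
`xpar i` has total degree at most `M + 1`; there is `Helper6.totalDegree_aeval_le` over `ℚ`, reprove
it over `K`: `as_sum`, `totalDegree_finsetSum_le`, `totalDegree_mul`, `totalDegree_pow`), so it does
not vanish at some point with coordinates in `{0, .., D (M+1)}`
(`MvPolynomial.eq_zero_of_eval_zero_at_prod_finset` or the proof of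
`Pool.Agent.Helper7.T1.exists_small`); its value there is the value of `f` at the point
(`cv_eval`). -/
theorem exists_mem_hittingSet (M E D : ℕ) (f : MvPolynomial (Fin n) K)
    (hD : f.totalDegree ≤ D) (hf : aeval (xpar K n M E) f ≠ 0) :
    ∃ x ∈ hittingSet n M E (D * (M + 1)), eval (fun i => (x i : K)) f ≠ 0 := by
  classical
  set p := aeval (xpar K n M E) f with hp
  have hdeg : p.totalDegree ≤ D * (M + 1) :=
    (totalDegree_aeval_le' _ (M + 1) (fun i => xpar_totalDegree_le M E i) f).trans
      (Nat.mul_le_mul_right _ hD)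
  set R := D * (M + 1) with hR
  let S : Finset K := (Finset.range (R + 1)).image (fun a : ℕ => (a : K))
  have hS : S.card = R + 1 := by
    rw [Finset.card_image_of_injective _ Nat.cast_injective, Finset.card_range]
  have hex : ∃ x : Fin 3 ⊕ (Fin E ⊕ Fin E) → K, (∀ c, x c ∈ S) ∧ eval x p ≠ 0 := by
    by_contra hcon
    push Not at hcon
    apply hf
    refine MvPolynomial.eq_zero_of_eval_zero_at_prod_finset p (fun _ => S) ?_ ?_
    · intro c
      rw [hS]
      have := degreeOf_le_totalDegree p c
      omega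
    · intro x hx
      exact hcon x hx
  obtain ⟨x, hxS, hx⟩ := hex
  have h1 : ∀ c, ∃ a : ℕ, a ∈ Finset.range (R + 1) ∧ (a : K) = x c := by
    intro c
    obtain ⟨a, ha, hax⟩ := Finset.mem_image.1 (hxS c)
    exact ⟨a, ha, hax⟩
  choose a ha hax using h1
  have hxa : x = fun c => (a c : K) := funext fun c => (hax c).symm
  refine ⟨point n M E (fun c => a (Sum.inl c)) (fun l => a (Sum.inr (Sum.inl l)))
        (fun l => a (Sum.inr (Sum.inr l))), ?_, ?_⟩
  · exact mem_hittingSet' M E R _ _ _ (fun c => ha _) (fun c => ha _) (fun c => ha _)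
  · have h2 : eval x p = eval (fun i => eval x (xpar K n M E i)) f := by
      rw [hp, MvPolynomial.map_aeval]
      have h3 : (eval x).comp (algebraMap K (MvPolynomial (Fin 3 ⊕ (Fin E ⊕ Fin E)) K)) =
          RingHom.id K := by
        ext r
        simp [algebraMap_eq]
      rw [h3]
      rfl
    rw [h2, hxa] at hx
    simp only [eval_xpar] at hx
    exact hx

end Pool.Agent.ORB
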