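import Pool.Agent.ORB.Gen

/-!
# ORB: the curves `A_i` and the base generator `L (A(u) + z A(t))`
-/

set_option autoImplicit false

namespace Pool.Agent.ORB

open MvPolynomial

variable {K : Type*} [Field K] {n : ℕ}

/-- the curve `A_i` as a polynomial -/
noncomputable def cv (K : Type*) [Field K] (M i : ℕ) : Polynomial K :=
  ∑ r ∈ Finset.Icc 1 M, Polynomial.C (((M.factorial / r) * i ^ r : ℕ) : K) * Polynomial.X ^ r

theorem cv_eval (M i t : ℕ) : (cv K M i).eval (t : K) = ((AA M i t : ℕ) : K) := by
  unfold cv AA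
  rw [Polynomial.eval_finsetSum, Nat.cast_sum]
  refine Finset.sum_congr rfl fun r _ => ?_
  rw [Polynomial.eval_mul, Polynomial.eval_C, Polynomial.eval_pow, Polynomial.eval_X]
  push_cast
  rw [mul_pow, mul_assoc]

/-- the curves in the coordinates `y` -/
noncomputable def gpA (A : Matrix (Fin n) (Fin n) K) (M : ℕ) (j : Fin n) : Polynomial K :=
  ∑ i : Fin n, Polynomial.C (A j i) * cv K M (i + 1)

/-- the base generator in the coordinates `y` -/
noncomputable def gam0 (A : Matrix (Fin n) (Fin n) K) (b : Fin n → K) (M : ℕ) (j : Fin n) :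
    MvPolynomial (Fin 3) K :=
  C (b j) + Polynomial.aeval (X 0 : MvPolynomial (Fin 3) K) (gpA A M j) +
    X 1 * Polynomial.aeval (X 2 : MvPolynomial (Fin 3) K) (gpA A M j)

end Pool.Agent.ORB
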