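import Pool.Agent.ORB.Faith

/-!
Jacobian minors of gates.
-/

set_option autoImplicit false

namespace Pool.Agent.ORB

open MvPolynomial

variable {K : Type*} [Field K] {n : ℕ}

/-- outputs of gates -/
def Gate (κ : ℕ) (𝓑 : Set (MvPolynomial (Fin n) K)) : Set (MvPolynomial (Fin n) K) :=
  {f | ∃ (m : ℕ) (b : Fin m → MvPolynomial (Fin n) K), (∀ l, b l ∈ 𝓑) ∧
    (((∀ v, (Finset.univ.filter fun l => v ∈ (b l).vars).card ≤ κ) ∧
      (f = ∑ l, b l ∨ ∃ e : Fin m → ℕ, f = ∏ l, b l ^ e l)) ∨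
    (m ≤ κ ∧ ∃ p : MvPolynomial (Fin m) K, f = aeval b p))}

/-- the children of a gate which depend on the variables `V` -/
theorem card_live {m κ : ℕ} (b : Fin m → MvPolynomial (Fin n) K)
    (hκ : ∀ v, (Finset.univ.filter fun l => v ∈ (b l).vars).card ≤ κ) (V : Finset (Fin n))
    [DecidablePred fun l => ∃ v ∈ V, v ∈ (b l).vars] :
    (Finset.univ.filter fun l => ∃ v ∈ V, v ∈ (b l).vars).card ≤ V.card * κ := by
  classical
  have h1 : (Finset.univ.filter fun l => ∃ v ∈ V, v ∈ (b l).vars) ⊆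
      V.biUnion fun v => Finset.univ.filter fun l => v ∈ (b l).vars := by
    intro l hl
    obtain ⟨v, hv, hvl⟩ := (Finset.mem_filter.1 hl).2
    exact Finset.mem_biUnion.2 ⟨v, hv, Finset.mem_filter.2 ⟨Finset.mem_univ _, hvl⟩⟩
  refine (Finset.card_le_card h1).trans (Finset.card_biUnion_le.trans ?_)
  calc _ ≤ ∑ _v ∈ V, κ := Finset.sum_le_sum fun v _ => by
        convert hκ v
    _ = V.card * κ := by simp

/-- derivatives of polynomials in few polynomials -/
theorem pd_aeval_mem {m : ℕ} (b : Fin m → MvPolynomial (Fin n) K) (V : Finset (Fin n))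
    (p : MvPolynomial (Fin m) K) [DecidableEq (MvPolynomial (Fin n) K)] :
    ∀ (L : List (Fin n)), (∀ v ∈ L, v ∈ V) → pd L (aeval b p) ∈
      Algebra.adjoin K (DD V (Finset.univ.image b) L.length : Set (MvPolynomial (Fin n) K))
  | [], _ => by
    rw [pd_nil, List.length_nil, DD_zero]
    have h1 : aeval b p ∈ Algebra.adjoin K (Set.range b) := by
      rw [Algebra.adjoin_range_eq_range_aeval]
      exact ⟨p, rfl⟩
    simpa using h1
  | v :: L, hL => by
    rw [pd_cons]
    exact pderiv_mem_adjoin (hL v (by simp))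
      (pd_aeval_mem b V p L fun u hu => hL u (List.mem_cons_of_mem _ hu))

/-- the rows of the Jacobian matrix -/
theorem gate_rows {κ : ℕ} {𝓑 : Set (MvPolynomial (Fin n) K)} {a : MvPolynomial (Fin n) K}
    (ha : a ∈ Gate κ 𝓑) (V : Finset (Fin n)) (L : List (Fin n)) (hL : ∀ v ∈ L, v ∈ V) :
    ∃ P ∈ Submonoid.closure 𝓑, ∃ B : Finset (MvPolynomial (Fin n) K), (∀ b ∈ B, b ∈ 𝓑) ∧
      B.card ≤ (V.card + 1) * κ ∧ ∀ v ∈ V,
        ∃ Q ∈ Algebra.adjoin K (DD V B (L.length + 1) : Set (MvPolynomial (Fin n) K)),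
          pderiv v (pd L a) = P * Q := by
  classical
  obtain ⟨m, b, hb, ⟨hκ, hab⟩ | ⟨hm, p, rfl⟩⟩ := ha
  swap
  · refine ⟨1, Submonoid.one_mem _, Finset.univ.image b, ?_, ?_, ?_⟩
    · intro x hx
      obtain ⟨l, _, rfl⟩ := Finset.mem_image.1 hx
      exact hb l
    · refine Finset.card_image_le.trans ?_
      rw [Finset.card_univ, Fintype.card_fin]
      exact hm.trans (Nat.le_mul_of_pos_left _ (Nat.succ_pos _))
    · intro v hv
      refine ⟨pd (v :: L) (aeval b p), ?_, by rw [one_mul, pd_cons]⟩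
      exact pd_aeval_mem b V p (v :: L) (by
        intro u hu
        rcases List.mem_cons.1 hu with rfl | hu
        · exact hv
        · exact hL u hu)
  set S : Finset (Fin m) := Finset.univ.filter fun l => ∃ v ∈ V, v ∈ (b l).vars with hSdef
  have hS : ∀ l, l ∉ S → ∀ v ∈ V, v ∉ (b l).vars := by
    intro l hl v hv hvl
    exact hl (Finset.mem_filter.2 ⟨Finset.mem_univ _, v, hv, hvl⟩)
  have hcard : (S.image b).card ≤ (V.card + 1) * κ :=
    (Finset.card_image_le.trans (card_live b hκ V)).trans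
      (Nat.mul_le_mul_right _ (Nat.le_succ _))
  have hmem : ∀ x ∈ S.image b, x ∈ 𝓑 := by
    intro x hx
    obtain ⟨l, _, rfl⟩ := Finset.mem_image.1 hx
    exact hb l
  rcases hab with rfl | ⟨e, rfl⟩
  · refine ⟨1, Submonoid.one_mem _, S.image b, hmem, hcard, ?_⟩
    intro v hv
    exact ⟨_, pd_sum_live b V S hS (v :: L) (by
      intro u hu
      rcases List.mem_cons.1 hu with rfl | hu
      · exact hv
      · exact hL u hu) (by simp), by rw [one_mul, pd_cons]⟩
  · refine ⟨(∏ l ∈ Sᶜ, b l ^ e l) * ∏ l ∈ S, b l ^ (e l - (L.length + 1)), ?_, S.image b, hmem,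
      hcard, ?_⟩
    · exact Submonoid.mul_mem _
        (Submonoid.prod_mem _ fun l _ => Submonoid.pow_mem _ (Submonoid.subset_closure (hb l)) _)
        (Submonoid.prod_mem _ fun l _ => Submonoid.pow_mem _ (Submonoid.subset_closure (hb l)) _)
    · intro v hv
      obtain ⟨Q, hQ, hQe⟩ := pd_prod b e V S hS (v :: L) (by
        intro u hu
        rcases List.mem_cons.1 hu with rfl | hu
        · exact hv
        · exact hL u hu)
      exact ⟨Q, hQ, hQe⟩

/-- derivatives of order at most `m` of the members of a class -/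
def Dc (𝓑 : Set (MvPolynomial (Fin n) K)) (m : ℕ) : Set (MvPolynomial (Fin n) K) :=
  {f | ∃ L : List (Fin n), L.length ≤ m ∧ ∃ b ∈ 𝓑, f = pd L b}

variable {σ : Type*}

/-- the substitution `PhiP gp γ c` does not kill the Jacobian minors of `𝓒` -/
def H1 (gp : Fin n → Polynomial K) (γ : Fin n → MvPolynomial σ K) (c : ℕ) (𝓒 : Set (MvPolynomial (Fin n) K)) (N : ℕ) :
    Prop :=
  ∀ M ≤ N, ∀ a : Fin M → MvPolynomial (Fin n) K, (∀ i, a i ∈ 𝓒) → ∀ J : Fin M → Fin n,
    (Matrix.of fun i j => pderiv (J j) (a i)).det ≠ 0 →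
      PhiP gp γ c (Matrix.of fun i j => pderiv (J j) (a i)).det ≠ 0

variable [CharZero K]

/-- elements of small algebras are not killed -/
theorem adj_hit {gp : Fin n → Polynomial K} (hgp : LinearIndependent K gp)
    {γ : Fin n → MvPolynomial σ K} {c : ℕ} {𝓒 : Set (MvPolynomial (Fin n) K)} {N : ℕ}
    (h : H1 gp γ c 𝓒 N) (PP : Finset (MvPolynomial (Fin n) K)) (hPP : ∀ p ∈ PP, p ∈ 𝓒)
    (hcard : PP.card ≤ N) (P : MvPolynomial (Fin n) K)
    (hP : P ∈ Algebra.adjoin K (PP : Set (MvPolynomial (Fin n) K))) (hP0 : P ≠ 0) :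
    PhiP gp γ (c + N) P ≠ 0 := by
  classical
  apply PhiP_PhiP
  have hr : (PP : Set (MvPolynomial (Fin n) K)) =
      Set.range (fun i => ((PP.equivFin.symm i : PP) : MvPolynomial (Fin n) K)) := by
    ext x
    constructor
    · intro hx
      exact ⟨PP.equivFin ⟨x, hx⟩, by simp⟩
    · rintro ⟨i, rfl⟩
      exact (PP.equivFin.symm i).2
  refine PhiP_faith gp hgp (fun v => PhiP gp γ c (X v)) N
    (fun i => ((PP.equivFin.symm i : PP) : MvPolynomial (Fin n) K)) ?_ ?_ P ?_ hP0
  · intro b _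
    have := Finset.card_le_univ b
    rw [Fintype.card_fin] at this
    exact this.trans hcard
  · intro M hM e J hdet
    rw [aeval_PhiP_X]
    exact h M hM _ (fun i => hPP _ (PP.equivFin.symm (e i)).2) J hdet
  · rw [← hr]
    exact isAlgebraic_algebraMap (⟨P, hP⟩ : Algebra.adjoin K (PP : Set (MvPolynomial (Fin n) K)))

/-- the number of polynomials which occur in the rows of the Jacobian matrix -/
def nRows (κ M m : ℕ) : ℕ := M * ((M + m + 1) ^ (m + 1) * ((M + m + 1) * κ)) + 1

/-- **the Jacobian minors of (derivatives of) gates** -/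
theorem gate_H1 {gp : Fin n → Polynomial K} (hgp : LinearIndependent K gp)
    {γ : Fin n → MvPolynomial σ K} {c κ : ℕ} {𝓑 : Set (MvPolynomial (Fin n) K)}
    {N m : ℕ} (h : H1 gp γ c (Dc 𝓑 (m + 1)) (nRows κ N m)) :
    H1 gp γ (c + nRows κ N m) (Dc (Gate κ 𝓑) m) N := by
  classical
  intro M hM f hf J hdet
  choose L hL a ha hfa using hf
  set V : Fin M → Finset (Fin n) := fun i => Finset.univ.image J ∪ (L i).toFinset with hV
  have hVcard : ∀ i, (V i).card ≤ N + m := fun i => by
    refine (Finset.card_union_le _ _).trans (Nat.add_le_add ?_ ?_)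
    · exact Finset.card_image_le.trans (by simpa using hM)
    · exact (List.toFinset_card_le _).trans (hL i)
  have hrow := fun i => gate_rows (ha i) (V i) (L i)
    (fun v hv => Finset.mem_union_right _ (by simpa using hv))
  choose P hP B hB hBcard hQ using hrow
  have hJV : ∀ i j, J j ∈ V i := fun i j =>
    Finset.mem_union_left _ (Finset.mem_image_of_mem J (Finset.mem_univ j))
  choose Q hQmem hQe using fun i j => hQ i (J j) (hJV i j)
  have hdetE : (Matrix.of fun i j => pderiv (J j) (f i)).det =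
      (∏ i, P i) * (Matrix.of fun i j => Q i j).det := by
    rw [← Matrix.det_mul_column]
    congr 1
    ext i j
    simp only [Matrix.of_apply]
    rw [hfa i, hQe i j]
  set PP : Finset (MvPolynomial (Fin n) K) :=
    Finset.univ.biUnion fun i => DD (V i) (B i) (m + 1) with hPP
  have hcard : PP.card ≤ nRows κ N m := by
    refine Finset.card_biUnion_le.trans ?_
    calc ∑ i, (DD (V i) (B i) (m + 1)).card
        ≤ ∑ _i : Fin M, (N + m + 1) ^ (m + 1) * ((N + m + 1) * κ) := by
          refine Finset.sum_le_sum fun i _ => (card_DD _ _ _).trans ?_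
          refine Nat.mul_le_mul (Nat.pow_le_pow_left (Nat.succ_le_succ (hVcard i)) _) ?_
          exact (hBcard i).trans (Nat.mul_le_mul_right _ (Nat.succ_le_succ (hVcard i)))
      _ = M * ((N + m + 1) ^ (m + 1) * ((N + m + 1) * κ)) := by simp
      _ ≤ N * ((N + m + 1) ^ (m + 1) * ((N + m + 1) * κ)) := Nat.mul_le_mul_right _ hM
      _ ≤ nRows κ N m := Nat.le_succ _
  have hmem : ∀ p ∈ PP, p ∈ Dc 𝓑 (m + 1) := by
    intro p hp
    obtain ⟨i, _, hp⟩ := Finset.mem_biUnion.1 hp
    obtain ⟨L', hL', b, hb, rfl⟩ := exists_of_mem_DD hp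
    exact ⟨L', hL', b, hB i b hb, rfl⟩
  have hQadj : ∀ i j, Q i j ∈ Algebra.adjoin K (PP : Set (MvPolynomial (Fin n) K)) := by
    intro i j
    refine Algebra.adjoin_mono ?_ (hQmem i j)
    intro x hx
    have hx' : x ∈ DD (V i) (B i) ((L i).length + 1) := by exact_mod_cast hx
    have h2 : x ∈ PP := Finset.mem_biUnion.2 ⟨i, Finset.mem_univ _,
      DD_mono _ _ (Nat.succ_le_succ (hL i)) hx'⟩
    exact_mod_cast h2
  have hdetQ : (Matrix.of fun i j => Q i j).det ∈
      Algebra.adjoin K (PP : Set (MvPolynomial (Fin n) K)) := by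
    rw [Matrix.det_apply]
    refine Subalgebra.sum_mem _ fun s _ => ?_
    refine Subalgebra.zsmul_mem _ (Subalgebra.prod_mem _ fun i _ => ?_) _
    exact hQadj _ _
  rw [hdetE] at hdet ⊢
  rw [map_mul]
  refine mul_ne_zero ?_ (adj_hit hgp h PP hmem hcard _ hdetQ (right_ne_zero_of_mul hdet))
  have hb : ∀ p ∈ Submonoid.closure 𝓑, p ≠ 0 → PhiP gp γ (c + nRows κ N m) p ≠ 0 := by
    intro p hp
    induction hp using Submonoid.closure_induction with
    | mem x hx =>
      intro hx0
      refine adj_hit hgp h {x} (fun p hp => ?_) (by simp [nRows]) x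
        (Algebra.subset_adjoin (by simp)) hx0
      rw [Finset.mem_singleton] at hp
      subst hp
      exact ⟨[], Nat.zero_le _, p, hx, rfl⟩
    | one => intro _; rw [map_one]; exact one_ne_zero
    | mul x y _ _ ihx ihy =>
      intro hxy
      rw [map_mul]
      exact mul_ne_zero (ihx (left_ne_zero_of_mul hxy)) (ihy (right_ne_zero_of_mul hxy))
  exact hb _ (Submonoid.prod_mem _ fun i _ => hP i) (left_ne_zero_of_mul hdet)

end Pool.Agent.ORB
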