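import Pool.Agent.ORB.CurveA

/-!
# ORB: independence of the curves in unknown coordinates
-/

set_option autoImplicit false

namespace Pool.Agent.ORB

open MvPolynomial

variable {K : Type*} [Field K] [CharZero K] {n : ℕ}

/-- an affine form which vanishes on the curve is zero -/
theorem affine_cv (β : K) (a : Fin n → K) (M : ℕ) (hM : n * 2 ^ 2 ≤ M)
    (h0 : Polynomial.C β + ∑ i : Fin n, Polynomial.C (a i) * cv K M (i + 1) = 0) :
    (C β + ∑ i : Fin n, C (a i) * X i : MvPolynomial (Fin n) K) = 0 := by
  classical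
  by_contra hG
  set G : MvPolynomial (Fin n) K := C β + ∑ i : Fin n, C (a i) * X i with hGdef
  have hpd : ∀ j, pderiv j G = C (a j) := by
    intro j
    rw [hGdef, map_add, pderiv_C, zero_add, map_sum, Finset.sum_eq_single j]
    · rw [pderiv_C_mul, pderiv_X_self, mul_one]
    · intro i _ hij
      rw [pderiv_C_mul, pderiv_X_of_ne hij, mul_zero]
    · intro h
      exact absurd (Finset.mem_univ j) h
  have hV : ∀ h ∈ Submodule.span K (({1, G} : Finset (MvPolynomial (Fin n) K)) :
      Set (MvPolynomial (Fin n) K)), ∀ j, pderiv j h ∈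
      Submodule.span K (({1, G} : Finset (MvPolynomial (Fin n) K)) :
      Set (MvPolynomial (Fin n) K)) := by
    intro h hh j
    rw [Finset.coe_insert, Finset.coe_singleton, Submodule.mem_span_pair] at hh
    obtain ⟨x, y, rfl⟩ := hh
    have h1 : pderiv j (x • (1 : MvPolynomial (Fin n) K) + y • G) =
        (y * a j) • (1 : MvPolynomial (Fin n) K) := by
      rw [map_add, Derivation.map_smul, Derivation.map_smul, Derivation.map_one_eq_zero,
        smul_zero, zero_add, hpd, smul_eq_C_mul, smul_eq_C_mul, mul_one, C_mul]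
    rw [h1]
    refine Submodule.smul_mem _ _ (Submodule.subset_span ?_)
    simp
  have hfd : FiniteDimensional K (Submodule.span K
      (({1, G} : Finset (MvPolynomial (Fin n) K)) : Set (MvPolynomial (Fin n) K))) :=
    FiniteDimensional.span_finset K _
  have hd : Module.finrank K (Submodule.span K
      (({1, G} : Finset (MvPolynomial (Fin n) K)) : Set (MvPolynomial (Fin n) K))) ≤ 2 :=
    le_trans (finrank_span_finset_le_card _) Finset.card_le_two
  have hmem : G ∈ Submodule.span K
      (({1, G} : Finset (MvPolynomial (Fin n) K)) : Set (MvPolynomial (Fin n) K)) := by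
    refine Submodule.subset_span ?_
    simp
  refine curve_ne_zero n 2 M hM G hG _ hV hfd hd hmem ?_
  rw [hGdef, map_add, map_sum, aeval_C]
  refine Eq.trans ?_ h0
  congr 1
  refine Finset.sum_congr rfl fun i _ => ?_
  rw [map_mul, aeval_C, aeval_X]
  rfl

omit [CharZero K] in
/-- coefficients of an affine form which is zero -/
theorem affine_coeff (β : K) (a : Fin n → K)
    (h : (C β + ∑ i : Fin n, C (a i) * X i : MvPolynomial (Fin n) K) = 0) : ∀ j, a j = 0 := by
  classical
  intro j
  have h1 := congrArg (fun g => pderiv j g) h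
  simp only [map_zero] at h1
  rw [map_add, pderiv_C, zero_add, map_sum, Finset.sum_eq_single j] at h1
  · rw [pderiv_C_mul, pderiv_X_self, mul_one] at h1
    exact (map_eq_zero_iff C (C_injective _ _)).1 h1
  · intro i _ hij
    rw [pderiv_C_mul, pderiv_X_of_ne hij, mul_zero]
  · intro h
    exact absurd (Finset.mem_univ j) h

/- PLAN. If `∑ c_j gpA_j = 0`, the linear form `G = ∑_i (∑_j c_j A_ji) X_i` satisfies
`aeval cv G = 0`; it is in `V = span {1, G}` (closed, dimension `≤ 2`), so `G = 0` by
`curve_ne_zero` with `D = 2`; so `c ᵥ* A = 0` and `c = 0` (`Matrix.eq_zero_of_vecMul_eq_zero`). -/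
theorem linearIndependent_gpA (A : Matrix (Fin n) (Fin n) K) (hA : A.det ≠ 0) (M : ℕ)
    (hM : n * 2 ^ 2 ≤ M) : LinearIndependent K (gpA A M) := by
  classical
  rw [Fintype.linearIndependent_iff]
  intro c hc
  have h0 : Polynomial.C (0 : K) +
      ∑ i : Fin n, Polynomial.C ((Matrix.vecMul c A) i) * cv K M (i + 1) = 0 := by
    rw [Polynomial.C_0, zero_add, ← hc]
    have h1 : ∀ i : Fin n, Polynomial.C ((Matrix.vecMul c A) i) * cv K M (i + 1) =
        ∑ j : Fin n, c j • (Polynomial.C (A j i) * cv K M (i + 1)) := by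
      intro i
      rw [Matrix.vecMul, dotProduct, map_sum, Finset.sum_mul]
      refine Finset.sum_congr rfl fun j _ => ?_
      rw [Polynomial.smul_eq_C_mul, map_mul, mul_assoc]
    rw [Finset.sum_congr rfl fun i _ => h1 i, Finset.sum_comm]
    refine Finset.sum_congr rfl fun j _ => ?_
    rw [gpA, Finset.smul_sum]
  have h2 := affine_coeff 0 (Matrix.vecMul c A) (affine_cv 0 (Matrix.vecMul c A) M hM h0)
  have h3 : Matrix.vecMul c A = 0 := funext h2
  have h4 := Matrix.eq_zero_of_vecMul_eq_zero hA h3
  exact fun j => congrFun h4 j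

end Pool.Agent.ORB
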