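import Pool.Agent.ORB.Gate

/-!
# ORB: closure properties of mixed leaves
-/

set_option autoImplicit false

namespace Pool.Agent.ORB

open MvPolynomial

variable {K : Type*} [Field K] {n : ℕ} {B : Finset (Fin n)}

theorem MixedLeaf.mono {s s' : ℕ} (h : s ≤ s') {g : MvPolynomial (Fin n) K}
    (hg : MixedLeaf B s g) : MixedLeaf B s' g := by
  obtain ⟨W, h1, h2, h3⟩ := hg
  exact ⟨W, h1, h2.trans h, h3⟩

/- PLAN. The space `W.map (pderiv j)`: derivatives commute (`pderiv_pderiv_comm` or
`Derivation.commute`), and for `i ∉ B`, `X i * pderiv i (pderiv j h) = pderiv j (X i * pderiv i h) -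
(if i = j then pderiv j h else 0)`. `Submodule.finrank_map_le`. -/
theorem MixedLeaf.pderiv {s : ℕ} {g : MvPolynomial (Fin n) K} (hg : MixedLeaf B s g) (j : Fin n) :
    MixedLeaf B s (MvPolynomial.pderiv j g) := by
  obtain ⟨W, hfd, hs, hgW, hB, hX⟩ := hg
  have hcomm : ∀ (a b : Fin n) (h : MvPolynomial (Fin n) K),
      MvPolynomial.pderiv a (MvPolynomial.pderiv b h) =
        MvPolynomial.pderiv b (MvPolynomial.pderiv a h) := by
    intro a b h
    induction h using MvPolynomial.induction_on with
    | C c => simp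
    | add p q hp hq => simp only [map_add, hp, hq]
    | mul_X p i hp =>
      have hx : ∀ a' : Fin n, MvPolynomial.pderiv a' (X i : MvPolynomial (Fin n) K) =
          C (if a' = i then 1 else 0) := by
        intro a'
        rw [MvPolynomial.pderiv_X]
        by_cases h : a' = i
        · subst h; simp
        · rw [if_neg h, Pi.single_eq_of_ne (Ne.symm h)]; simp
      simp only [Derivation.leibniz, map_add, hx, hp, Derivation.leibniz, smul_eq_mul,
        MvPolynomial.pderiv_C]
      ring
  refine ⟨W.map (MvPolynomial.pderiv j : Derivation K _ _).toLinearMap, inferInstance,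
    (Submodule.finrank_map_le _ _).trans hs, ⟨g, hgW, rfl⟩, ?_, ?_⟩
  · rintro _ ⟨h, hh, rfl⟩ i hi
    exact ⟨MvPolynomial.pderiv i h, hB h hh i hi, hcomm j i h⟩
  · rintro _ ⟨h, hh, rfl⟩ i hi
    have key : X i * MvPolynomial.pderiv i (MvPolynomial.pderiv j h) =
        MvPolynomial.pderiv j (X i * MvPolynomial.pderiv i h) -
          (if i = j then MvPolynomial.pderiv j h else 0) := by
      rw [Derivation.leibniz, hcomm i j h]
      by_cases hij : i = j
      · subst hij
        simp
      · rw [if_neg hij, MvPolynomial.pderiv_X_of_ne (Ne.symm (fun h => hij h.symm))]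
        simp
    have h1 : (MvPolynomial.pderiv j) (X i * MvPolynomial.pderiv i h) ∈
        W.map (MvPolynomial.pderiv j : Derivation K _ _).toLinearMap :=
      ⟨_, hX h hh i hi, rfl⟩
    have h2 : (if i = j then MvPolynomial.pderiv j h else 0) ∈
        W.map (MvPolynomial.pderiv j : Derivation K _ _).toLinearMap := by
      split_ifs
      · exact ⟨h, hh, rfl⟩
      · exact Submodule.zero_mem _
    have h3 := Submodule.sub_mem _ h1 h2
    rw [← key] at h3
    exact h3

theorem MixedLeaf.pd {s : ℕ} {g : MvPolynomial (Fin n) K} (hg : MixedLeaf B s g) :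
    ∀ L : List (Fin n), MixedLeaf B s (pd L g)
  | [] => hg
  | v :: L => (hg.pd L).pderiv v

/- PLAN. The space `W₁ ⊔ W₂`; `Submodule.finrank_add_le_finrank_add_finrank`; elements of the sup are
sums (`Submodule.mem_sup`). -/
theorem MixedLeaf.add {s₁ s₂ : ℕ} {g₁ g₂ : MvPolynomial (Fin n) K} (h₁ : MixedLeaf B s₁ g₁)
    (h₂ : MixedLeaf B s₂ g₂) : MixedLeaf B (s₁ + s₂) (g₁ + g₂) := by
  obtain ⟨W₁, f₁, d₁, m₁, b₁, x₁⟩ := h₁
  obtain ⟨W₂, f₂, d₂, m₂, b₂, x₂⟩ := h₂
  refine ⟨W₁ ⊔ W₂, inferInstance, ?_, ?_, ?_, ?_⟩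
  · exact (Submodule.finrank_add_le_finrank_add_finrank W₁ W₂).trans (Nat.add_le_add d₁ d₂)
  · exact Submodule.add_mem_sup m₁ m₂
  · intro h hh j hj
    obtain ⟨a, ha, b, hb, rfl⟩ := Submodule.mem_sup.mp hh
    rw [map_add]
    exact Submodule.add_mem_sup (b₁ a ha j hj) (b₂ b hb j hj)
  · intro h hh j hj
    obtain ⟨a, ha, b, hb, rfl⟩ := Submodule.mem_sup.mp hh
    rw [map_add, mul_add]
    exact Submodule.add_mem_sup (x₁ a ha j hj) (x₂ b hb j hj)

/- PLAN. The same space. -/
theorem MixedLeaf.neg {s : ℕ} {g : MvPolynomial (Fin n) K} (h : MixedLeaf B s g) :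
    MixedLeaf B s (-g) := by
  obtain ⟨W, f, d, m, b, x⟩ := h
  exact ⟨W, f, d, W.neg_mem m, b, x⟩

/- PLAN. `W = K ∙ 1`. -/
theorem MixedLeaf.one : MixedLeaf B 1 (1 : MvPolynomial (Fin n) K) := by
  refine ⟨Submodule.span K {1}, inferInstance, ?_, Submodule.mem_span_singleton_self _, ?_, ?_⟩
  · exact (finrank_span_singleton (K := K) (one_ne_zero : (1 : MvPolynomial (Fin n) K) ≠ 0)).le
  · intro h hh j _
    obtain ⟨a, rfl⟩ := Submodule.mem_span_singleton.mp hh
    rw [Derivation.map_smul, MvPolynomial.pderiv_one, smul_zero]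
    exact Submodule.zero_mem _
  · intro h hh j _
    obtain ⟨a, rfl⟩ := Submodule.mem_span_singleton.mp hh
    rw [Derivation.map_smul, MvPolynomial.pderiv_one, smul_zero, mul_zero]
    exact Submodule.zero_mem _

/- PLAN. `W = ⊥`. -/
theorem MixedLeaf.zero : MixedLeaf B 0 (0 : MvPolynomial (Fin n) K) := by
  refine ⟨⊥, inferInstance, ?_, Submodule.zero_mem _, ?_, ?_⟩
  · exact (finrank_bot K _).le
  · intro h hh j _
    rw [(Submodule.mem_bot K).mp hh, map_zero]
    exact Submodule.zero_mem _
  · intro h hh j _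
    rw [(Submodule.mem_bot K).mp hh, map_zero, mul_zero]
    exact Submodule.zero_mem _

/- PLAN. `W = span` of the monomials in the support (`X j * pderiv j (monomial m c) = monomial m
(m j * c)`). -/
theorem mixedLeaf_of_support {s : ℕ} {g : MvPolynomial (Fin n) K} (h : g.support.card ≤ s) :
    MixedLeaf ∅ s g := by
  classical
  set T : Finset (MvPolynomial (Fin n) K) := g.support.image fun m => monomial m (1 : K) with hT
  refine ⟨Submodule.span K (T : Set (MvPolynomial (Fin n) K)), inferInstance, ?_, ?_, ?_, ?_⟩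
  · exact ((finrank_span_finset_le_card T).trans Finset.card_image_le).trans h
  · rw [g.as_sum]
    refine Submodule.sum_mem _ fun m hm => ?_
    have h1 : monomial m (coeff m g) = coeff m g • monomial m (1 : K) := by
      rw [smul_monomial, smul_eq_mul, mul_one]
    rw [h1]
    refine Submodule.smul_mem _ _ (Submodule.subset_span ?_)
    exact Finset.mem_coe.mpr (Finset.mem_image_of_mem _ hm)
  · intro h _ j hj
    exact absurd hj (Finset.notMem_empty j)
  · intro h hh j _
    induction hh using Submodule.span_induction with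
    | mem x hx =>
      obtain ⟨m, hm, rfl⟩ := Finset.mem_image.mp (Finset.mem_coe.mp hx)
      have h1 : X j * MvPolynomial.pderiv j (monomial m (1 : K)) =
          (m j : K) • monomial m (1 : K) := by
        rw [X_mul_pderiv_monomial, smul_monomial, smul_monomial]
        simp [nsmul_eq_mul]
      rw [h1]
      exact Submodule.smul_mem _ _ (Submodule.subset_span (Finset.mem_coe.mpr
        (Finset.mem_image_of_mem _ hm)))
    | zero => rw [map_zero, mul_zero]; exact Submodule.zero_mem _
    | add x y _ _ hx hy => rw [map_add, mul_add]; exact Submodule.add_mem _ hx hy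
    | smul a x _ hx =>
      rw [Derivation.map_smul, mul_smul_comm]
      exact Submodule.smul_mem _ _ hx

end Pool.Agent.ORB
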