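import Pool.Agent.ORB.Gate

/-!
# The combined generator `γ + ∑_l z_l p(w_l)`
-/

set_option autoImplicit false

namespace Pool.Agent.ORB

open MvPolynomial

variable {K : Type*} [Field K] {n : ℕ} {σ : Type*}

/-- the combined generator `x_v ↦ γ_v + ∑_{l<c} z_l p_v(w_l)` -/
noncomputable def PhiP (p : Fin n → Polynomial K) (γ : Fin n → MvPolynomial σ K) (c : ℕ) :
    MvPolynomial (Fin n) K →ₐ[K] MvPolynomial (σ ⊕ (Fin c ⊕ Fin c)) K :=
  aeval fun v => rename Sum.inl (γ v) + ∑ l : Fin c, X (Sum.inr (Sum.inl l)) *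
    Polynomial.aeval (X (Sum.inr (Sum.inr l)) : MvPolynomial (σ ⊕ (Fin c ⊕ Fin c)) K) (p v)

/-- the value of the generator -/
def val (p : Fin n → Polynomial K) (y : Fin n → K) {c : ℕ} (z w : Fin c → K) (v : Fin n) : K :=
  y v + ∑ l, z l * (p v).eval (w l)

theorem eval_PhiP (p : Fin n → Polynomial K) (γ : Fin n → MvPolynomial σ K) (c : ℕ)
    (w : σ ⊕ (Fin c ⊕ Fin c) → K) (f : MvPolynomial (Fin n) K) :
    eval w (PhiP p γ c f) = eval (val p (fun v => eval (fun i => w (Sum.inl i)) (γ v))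
      (fun l => w (Sum.inr (Sum.inl l))) (fun l => w (Sum.inr (Sum.inr l)))) f := by
  have h : (aeval w : MvPolynomial _ K →ₐ[K] K).comp (PhiP p γ c) =
      aeval (val p (fun v => eval (fun i => w (Sum.inl i)) (γ v))
        (fun l => w (Sum.inr (Sum.inl l))) (fun l => w (Sum.inr (Sum.inr l)))) := by
    apply MvPolynomial.algHom_ext
    intro v
    rw [AlgHom.comp_apply, PhiP, aeval_X, aeval_X, map_add, map_sum, val]
    congr 1
    · rw [aeval_rename]
      rfl
    · refine Finset.sum_congr rfl fun l _ => ?_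
      rw [map_mul, aeval_X, ← Polynomial.aeval_algHom_apply, aeval_X, Polynomial.aeval_def,
        Polynomial.eval₂_eq_eval_map]
      congr 2
      exact Polynomial.map_id
  have h2 := congrArg (fun g : MvPolynomial (Fin n) K →ₐ[K] K => g f) h
  exact h2

theorem exists_eval_ne_zero [Infinite K] {τ : Type*} {f : MvPolynomial τ K} (h : f ≠ 0) :
    ∃ w, eval w f ≠ 0 := by
  by_contra hcon
  push Not at hcon
  exact h (MvPolynomial.funext fun w => by rw [hcon w, map_zero])

/-- nonvanishing at one point -/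
theorem PhiP_ne_zero (p : Fin n → Polynomial K) (γ : Fin n → MvPolynomial σ K) (c : ℕ)
    (f : MvPolynomial (Fin n) K) (s : σ → K) (z w : Fin c → K)
    (hf : eval (val p (fun v => eval s (γ v)) z w) f ≠ 0) : PhiP p γ c f ≠ 0 := by
  intro h0
  apply hf
  have h1 := eval_PhiP p γ c (Sum.elim s (Sum.elim z w)) f
  rw [h0, map_zero] at h1
  rw [h1]
  rfl

theorem val_append (p : Fin n → Polynomial K) (y : Fin n → K) {c M : ℕ} (z w : Fin c → K)
    (z' w' : Fin M → K) :
    val p (val p y z w) z' w' = val p y (Fin.append z z') (Fin.append w w') := by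
  funext v
  unfold val
  rw [Fin.sum_univ_add, add_assoc]
  congr 2
  · exact Finset.sum_congr rfl fun l _ => by rw [Fin.append_left, Fin.append_left]
  · exact Finset.sum_congr rfl fun l _ => by rw [Fin.append_right, Fin.append_right]

theorem aeval_PhiP_X (p : Fin n → Polynomial K) (γ : Fin n → MvPolynomial σ K) (c : ℕ)
    (f : MvPolynomial (Fin n) K) :
    aeval (fun v => PhiP p γ c (X v)) f = PhiP p γ c f := by
  have h : (aeval (fun v => PhiP p γ c (X v)) : MvPolynomial (Fin n) K →ₐ[K] _) = PhiP p γ c :=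
    MvPolynomial.algHom_ext fun v => by rw [aeval_X]
  rw [h]

theorem PhiP_PhiP [Infinite K] (p : Fin n → Polynomial K) (γ : Fin n → MvPolynomial σ K) (c M : ℕ)
    {f : MvPolynomial (Fin n) K} (h : PhiP p (fun v => PhiP p γ c (X v)) M f ≠ 0) :
    PhiP p γ (c + M) f ≠ 0 := by
  obtain ⟨w, hw⟩ := exists_eval_ne_zero h
  rw [eval_PhiP] at hw
  refine PhiP_ne_zero p γ (c + M) f (fun i => w (Sum.inl (Sum.inl i)))
    (Fin.append (fun l => w (Sum.inl (Sum.inr (Sum.inl l)))) fun l => w (Sum.inr (Sum.inl l)))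
    (Fin.append (fun l => w (Sum.inl (Sum.inr (Sum.inr l)))) fun l => w (Sum.inr (Sum.inr l))) ?_
  rw [← val_append]
  have h1 : (fun v => eval (fun i => w (Sum.inl i)) (PhiP p γ c (X v))) =
      val p (fun v => eval (fun i => w (Sum.inl (Sum.inl i))) (γ v))
        (fun l => w (Sum.inl (Sum.inr (Sum.inl l)))) (fun l => w (Sum.inl (Sum.inr (Sum.inr l)))) := by
    funext v
    rw [eval_PhiP, eval_X]
  rw [h1] at hw
  exact hw

theorem PhiP_mono [Infinite K] (p : Fin n → Polynomial K) (γ : Fin n → MvPolynomial σ K)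
    {c c' : ℕ} (hc : c ≤ c') {f : MvPolynomial (Fin n) K} (h : PhiP p γ c f ≠ 0) :
    PhiP p γ c' f ≠ 0 := by
  obtain ⟨M, rfl⟩ := Nat.exists_eq_add_of_le hc
  obtain ⟨w, hw⟩ := exists_eval_ne_zero h
  rw [eval_PhiP] at hw
  refine PhiP_ne_zero p γ (c + M) f (fun i => w (Sum.inl i))
    (Fin.append (fun l => w (Sum.inr (Sum.inl l))) fun _ => 0)
    (Fin.append (fun l => w (Sum.inr (Sum.inr l))) fun _ => 0) ?_
  rw [← val_append]
  have h1 : ∀ y : Fin n → K, val p y (fun _ : Fin M => 0) (fun _ => 0) = y := by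
    intro y
    funext v
    simp [val]
  rw [h1]
  exact hw

theorem PhiP_of_aeval [Infinite K] (p : Fin n → Polynomial K) (γ : Fin n → MvPolynomial σ K)
    (c : ℕ) {f : MvPolynomial (Fin n) K} (h : aeval γ f ≠ 0) : PhiP p γ c f ≠ 0 := by
  obtain ⟨w, hw⟩ := exists_eval_ne_zero h
  have h2 : eval w (aeval γ f) = eval (fun v => eval w (γ v)) f := by
    have h3 : (aeval w : MvPolynomial σ K →ₐ[K] K).comp (aeval γ) =
        aeval (fun v => eval w (γ v)) := by
      apply MvPolynomial.algHom_ext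
      intro v
      rw [AlgHom.comp_apply, aeval_X, aeval_X]
      rfl
    exact congrArg (fun g : MvPolynomial (Fin n) K →ₐ[K] K => g f) h3
  rw [h2] at hw
  refine PhiP_ne_zero p γ c f w (fun _ => 0) (fun _ => 0) ?_
  have h1 : val p (fun v => eval w (γ v)) (fun _ : Fin c => 0) (fun _ => 0) =
      fun v => eval w (γ v) := by
    funext v
    simp [val]
  rw [h1]
  exact hw

end Pool.Agent.ORB
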