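import Mathlib

/-!
Project ORB (MP_e2be99_lc): orbits of formulas of bounded depth and bounded occurrence over mixed
leaves.  Definitions used in the statement.
-/

set_option autoImplicit false

namespace Pool.Agent.ORB

open MvPolynomial

/-- `OccFormula κ L Δ f`: the polynomial `f` is computed by a formula of depth `Δ` over leaves which
satisfy `L`. The gates are
* sums of any number of polynomials such that every variable occurs in at most `κ` of them;
* products of powers, with arbitrary exponents, of any number of polynomials such that every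
  variable occurs in at most `κ` of them;
* arbitrary polynomials, of any degree, in at most `κ` polynomials. -/
inductive OccFormula {K : Type*} [Field K] {n : ℕ} (κ : ℕ) (L : MvPolynomial (Fin n) K → Prop) :
    ℕ → MvPolynomial (Fin n) K → Prop
  | leaf {f : MvPolynomial (Fin n) K} (hf : L f) : OccFormula κ L 0 f
  | sum {Δ m : ℕ} (b : Fin m → MvPolynomial (Fin n) K) (hb : ∀ l, OccFormula κ L Δ (b l))
      (hκ : ∀ v, (Finset.univ.filter fun l => v ∈ (b l).vars).card ≤ κ) :
      OccFormula κ L (Δ + 1) (∑ l, b l)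
  | prod {Δ m : ℕ} (b : Fin m → MvPolynomial (Fin n) K) (hb : ∀ l, OccFormula κ L Δ (b l))
      (hκ : ∀ v, (Finset.univ.filter fun l => v ∈ (b l).vars).card ≤ κ) (e : Fin m → ℕ) :
      OccFormula κ L (Δ + 1) (∏ l, b l ^ e l)
  | comp {Δ m : ℕ} (b : Fin m → MvPolynomial (Fin n) K) (hb : ∀ l, OccFormula κ L Δ (b l))
      (hm : m ≤ κ) (p : MvPolynomial (Fin m) K) : OccFormula κ L (Δ + 1) (MvPolynomial.aeval b p)

/-- `g` is in a space of dimension at most `s` which is closed under `∂/∂y_j` for `j ∈ B` and under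
`y_j ∂/∂y_j` for `j ∉ B`. -/
def MixedLeaf {K : Type*} [Field K] {n : ℕ} (B : Finset (Fin n)) (s : ℕ)
    (g : MvPolynomial (Fin n) K) : Prop :=
  ∃ W : Submodule K (MvPolynomial (Fin n) K), FiniteDimensional K W ∧ Module.finrank K W ≤ s ∧
    g ∈ W ∧ (∀ h ∈ W, ∀ j ∈ B, pderiv j h ∈ W) ∧ ∀ h ∈ W, ∀ j, j ∉ B → X j * pderiv j h ∈ W

/-- The substitution `y_j = b_j + ∑_i A_ji x_i`. -/
noncomputable def aff {K : Type*} [Field K] {n : ℕ} (A : Matrix (Fin n) (Fin n) K) (b : Fin n → K) :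
    MvPolynomial (Fin n) K →ₐ[K] MvPolynomial (Fin n) K :=
  aeval fun j => C (b j) + ∑ i, C (A j i) * X i

/-- `g` is obtained by an invertible affine substitution from a polynomial which is algebraic over
the field generated by formulas `T_i` of depth `Δ` and occurrence `κ` over mixed leaves, at most `k`
of which are algebraically independent. -/
def OrbitClass {K : Type*} [Field K] {n : ℕ} (κ k s Δ : ℕ) (g : MvPolynomial (Fin n) K) : Prop :=
  ∃ (A : Matrix (Fin n) (Fin n) K) (b : Fin n → K) (B : Finset (Fin n)) (N : ℕ)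
    (T : Fin N → MvPolynomial (Fin n) K) (h : MvPolynomial (Fin n) K),
    A.det ≠ 0 ∧ (∀ i, OccFormula κ (MixedLeaf B s) Δ (T i)) ∧
    (∀ c : Finset (Fin N), AlgebraicIndepOn K T (c : Set (Fin N)) → c.card ≤ k) ∧
    IsAlgebraic (Algebra.adjoin K (Set.range T)) h ∧ g = aff A b h

/-- `m_0 = k`, `m_{j+1} = κ m_j (m_j + j + 1)^(j+2) + 1` -/
def mSeq (κ k : ℕ) : ℕ → ℕ
  | 0 => k
  | j + 1 => κ * mSeq κ k j * (mSeq κ k j + j + 1) ^ (j + 2) + 1

/-- the number of seeds `m_0 + ... + m_Δ` -/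
def seeds (κ k Δ : ℕ) : ℕ := ∑ j ∈ Finset.range (Δ + 1), mSeq κ k j

/-- the dimension `m! s^m + 2`, `m = m_Δ` -/
def dimn (κ k s Δ : ℕ) : ℕ := (mSeq κ k Δ).factorial * s ^ mSeq κ k Δ + 2

/-- `M = n (m! s^m + 2)^2` -/
def ordn (n κ k s Δ : ℕ) : ℕ := n * dimn κ k s Δ ^ 2

/-- `A_i(t) = M! ∑_{r=1..M} (i t)^r / r`, a natural number. -/
def AA (M i t : ℕ) : ℕ := ∑ r ∈ Finset.Icc 1 M, (M.factorial / r) * (i * t) ^ r

/-- The point `x_i = A_i(u) + z A_i(t) + ∑_{l<E} z_l A_i(w_l)`. -/
def point (n M E : ℕ) (a : Fin 3 → ℕ) (z w : Fin E → ℕ) (i : Fin n) : ℕ :=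
  AA M (i + 1) (a 0) + a 1 * AA M (i + 1) (a 2) + ∑ l, z l * AA M (i + 1) (w l)

/-- All points with parameters in `{0, ..., R}`. -/
def hittingSet (n M E R : ℕ) : Finset (Fin n → ℕ) :=
  ((Fintype.piFinset fun _ : Fin 3 => Finset.range (R + 1)) ×ˢ
    ((Fintype.piFinset fun _ : Fin E => Finset.range (R + 1)) ×ˢ
      (Fintype.piFinset fun _ : Fin E => Finset.range (R + 1)))).image
    fun a => point n M E a.1 a.2.1 a.2.2

end Pool.Agent.ORB
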