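import Pool.Agent.ORB.InitDef

/-!
# ORB: the space of the initial forms is closed under derivatives
-/

set_option autoImplicit false

namespace Pool.Agent.ORB

open MvPolynomial

variable {K : Type*} [Field K] {n : ℕ}

private theorem hc_pderiv (k : ℕ) (j : Fin n) (h : MvPolynomial (Fin n) K) :
    homogeneousComponent k (pderiv j h) = pderiv j (homogeneousComponent (k + 1) h) := by
  ext d
  rw [coeff_homogeneousComponent, coeff_pderiv, coeff_pderiv, coeff_homogeneousComponent]
  have h1 : (d + Finsupp.single j 1).degree = d.degree + 1 := by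
    rw [map_add, Finsupp.degree_single]
  rw [h1]
  by_cases h2 : d.degree = k
  · rw [if_pos h2, if_pos (by omega)]
  · rw [if_neg h2, if_neg (by omega), zero_mul]

private theorem hc_X_succ (k : ℕ) (j : Fin n) (g : MvPolynomial (Fin n) K) :
    homogeneousComponent (k + 1) (X j * g) = X j * homogeneousComponent k g := by
  classical
  ext d
  rw [coeff_homogeneousComponent, coeff_X_mul', coeff_X_mul', coeff_homogeneousComponent]
  by_cases h1 : j ∈ d.support
  · rw [if_pos h1, if_pos h1]
    have h2 : d = (d - Finsupp.single j 1) + Finsupp.single j 1 := by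
      rw [tsub_add_cancel_of_le]
      rw [Finsupp.single_le_iff]
      exact Nat.one_le_iff_ne_zero.2 (Finsupp.mem_support_iff.1 h1)
    have h3 : d.degree = (d - Finsupp.single j 1).degree + 1 := by
      conv_lhs => rw [h2]
      rw [map_add, Finsupp.degree_single]
    rw [h3]
    by_cases h4 : (d - Finsupp.single j 1).degree = k
    · rw [if_pos (by omega), if_pos h4]
    · rw [if_neg (by omega), if_neg h4]
  · rw [if_neg h1, if_neg h1, ite_self]

private theorem hc_X_zero (j : Fin n) (g : MvPolynomial (Fin n) K) :
    homogeneousComponent 0 (X j * g) = 0 := by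
  classical
  ext d
  rw [coeff_homogeneousComponent, coeff_X_mul', coeff_zero]
  by_cases h0 : d.degree = 0
  · have h1 : d = 0 := by
      rwa [Finsupp.degree_eq_zero_iff] at h0
    rw [if_pos h0, if_neg (by simp [h1])]
  · rw [if_neg h0]

/- PLAN. `homogeneousComponent k (pderiv j h) = pderiv j (homogeneousComponent (k + 1) h)` (compare
coefficients, or `h = ∑ components` and `IsHomogeneous.pderiv`), and
`homogeneousComponent (k + 1) (X j * g) = X j * homogeneousComponent k g`,
`homogeneousComponent 0 (X j * g) = 0`.  By `Submodule.span_induction` it is enough to treat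
`v = homogeneousComponent m h`, `h ∈ W`, lower components `0`.  `m = 0`: `v` is a constant,
`pderiv j v = 0`.  `m = m' + 1`, `j ∈ B`: `h' = pderiv j h ∈ W`, `h'_k = ∂_j h_{k+1} = 0` for
`k < m'`, `h'_{m'} = ∂_j v`.  `j ∉ B`: `h' = (C (β j) + X j) * pderiv j h ∈ W`,
`h'_k = C (β j) * ∂_j h_{k+1} + X j * ∂_j h_k` (second term absent for `k = 0`), so lower components
vanish and `h'_{m'} = C (β j) * ∂_j v`; divide by `β j ≠ 0`. -/
theorem pderiv_mem_span_initS {B : Finset (Fin n)} (β : Fin n → K) (hβ : ∀ j, j ∉ B → β j ≠ 0)
    (W : Submodule K (MvPolynomial (Fin n) K)) (hB : ∀ h ∈ W, ∀ j ∈ B, pderiv j h ∈ W)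
    (hnB : ∀ h ∈ W, ∀ j, j ∉ B → (C (β j) + X j) * pderiv j h ∈ W)
    (v : MvPolynomial (Fin n) K) (hv : v ∈ Submodule.span K (initS W)) (j : Fin n) :
    pderiv j v ∈ Submodule.span K (initS W) := by
  induction hv using Submodule.span_induction with
  | zero => rw [map_zero]; exact Submodule.zero_mem _
  | add x y _ _ hx hy => rw [map_add]; exact Submodule.add_mem _ hx hy
  | smul a x _ hx =>
    have h1 : pderiv j (a • x) = a • pderiv j x := Derivation.map_smul _ _ _
    rw [h1]
    exact Submodule.smul_mem _ _ hx
  | mem v hv =>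
    obtain ⟨m, h, hW, hlow, rfl⟩ := hv
    cases m with
    | zero =>
      rw [homogeneousComponent_zero, pderiv_C]
      exact Submodule.zero_mem _
    | succ m =>
      by_cases hj : j ∈ B
      · refine Submodule.subset_span ⟨m, pderiv j h, hB h hW j hj, fun k hk => ?_, (hc_pderiv m j h).symm⟩
        rw [hc_pderiv, hlow (k + 1) (by omega), map_zero]
      · have hc : ∀ k, k ≤ m → homogeneousComponent k ((C (β j) + X j) * pderiv j h) =
            C (β j) * pderiv j (homogeneousComponent (k + 1) h) := by
          intro k hk
          rw [add_mul, map_add, homogeneousComponent_C_mul, hc_pderiv]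
          cases k with
          | zero => rw [hc_X_zero, add_zero]
          | succ k =>
            rw [hc_X_succ, hc_pderiv, hlow (k + 1) (by omega), map_zero, mul_zero, add_zero]
        have h2 : C (β j) * pderiv j (homogeneousComponent (m + 1) h) ∈ Submodule.span K (initS W) := by
          refine Submodule.subset_span ⟨m, (C (β j) + X j) * pderiv j h, hnB h hW j hj, fun k hk => ?_,
            (hc m le_rfl).symm⟩
          rw [hc k hk.le, hlow (k + 1) (by omega), map_zero, mul_zero]
        have h3 := Submodule.smul_mem _ (β j)⁻¹ h2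
        rw [← C_mul', ← mul_assoc, ← C_mul, inv_mul_cancel₀ (hβ j hj), C_1, one_mul] at h3
        exact h3

end Pool.Agent.ORB
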