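import Pool.Agent.ORB.InitA
import Pool.Agent.ORB.InitB

/-!
# ORB: the initial form of a mixed leaf at a good point has a small space of derivatives
-/

set_option autoImplicit false

namespace Pool.Agent.ORB

open MvPolynomial

variable {K : Type*} [Field K] {n : ℕ}

private theorem in_pd (β : Fin n → K) (j : Fin n) (h : MvPolynomial (Fin n) K) :
    pderiv j (tr β h) = tr β (pderiv j h) := by
  classical
  induction h using MvPolynomial.induction_on with
  | C a =>
    rw [pderiv_C, map_zero]
    have h1 : tr β (C a) = C a := by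
      unfold tr
      rw [aeval_C]
      rfl
    rw [h1, pderiv_C]
  | add p q hp hq => rw [map_add, map_add, map_add, map_add, hp, hq]
  | mul_X p i hp =>
    have h1 : tr β (X i) = C (β i) + X i := by
      unfold tr
      rw [aeval_X]
    rw [map_mul, h1, pderiv_mul, pderiv_mul, hp, map_add, pderiv_C, zero_add, map_add, map_mul, map_mul, h1,
      pderiv_X]
    congr 2
    by_cases hij : i = j
    · subst hij
      rw [Pi.single_eq_same, map_one]
    · rw [Pi.single_eq_of_ne hij, map_zero]

private theorem in_inv (β : Fin n → K) (h : MvPolynomial (Fin n) K) : tr (-β) (tr β h) = h := by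
  have h1 : (tr (-β)).comp (tr β) = AlgHom.id K (MvPolynomial (Fin n) K) := by
    apply MvPolynomial.algHom_ext
    intro i
    rw [AlgHom.comp_apply, AlgHom.id_apply]
    unfold tr
    rw [aeval_X, map_add, aeval_X, aeval_C]
    have h2 : algebraMap K (MvPolynomial (Fin n) K) (β i) = C (β i) := rfl
    rw [h2, Pi.neg_apply, C_neg]
    ring
  exact DFunLike.congr_fun h1 h

/- PLAN. `hF` gives `W`; `W' = W.map (tr β)` (`Submodule.finrank_map_le`) is closed under `∂_j`
(`j ∈ B`) and under `(β_j + X_j) ∂_j` (`j ∉ B`), since `pderiv j (tr β h) = tr β (pderiv j h)`.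
`V = span (initS W')`, `finrank_initS`, `pderiv_mem_span_initS`.  `tr β F ≠ 0` (`tr β` is injective,
`tr (-β)` is a left inverse); it is the sum of its components, so take the least `m` with a nonzero
component (`Nat.find`). -/
theorem exists_initial {B : Finset (Fin n)} {s : ℕ} {F : MvPolynomial (Fin n) K}
    (hF : MixedLeaf B s F) (hF0 : F ≠ 0) (β : Fin n → K) (hβ : ∀ j, j ∉ B → β j ≠ 0) :
    ∃ (m : ℕ) (V : Submodule K (MvPolynomial (Fin n) K)), FiniteDimensional K V ∧
      Module.finrank K V ≤ s ∧ (∀ h ∈ V, ∀ j, pderiv j h ∈ V) ∧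
      homogeneousComponent m (tr β F) ∈ V ∧ homogeneousComponent m (tr β F) ≠ 0 ∧
      ∀ k < m, homogeneousComponent k (tr β F) = 0 := by
  classical
  obtain ⟨W, hWf, hWs, hFW, hWB, hWnB⟩ := hF
  obtain ⟨W', hW'⟩ : ∃ W' : Submodule K (MvPolynomial (Fin n) K), W' = W.map (tr β).toLinearMap := ⟨_, rfl⟩
  have hfin' : FiniteDimensional K W' := by
    rw [hW']
    infer_instance
  have hmem : ∀ h, h ∈ W' ↔ ∃ g ∈ W, tr β g = h := by
    intro h
    rw [hW', Submodule.mem_map]
    rfl
  have hB' : ∀ h ∈ W', ∀ j ∈ B, pderiv j h ∈ W' := by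
    intro h hh j hj
    obtain ⟨g, hg, rfl⟩ := (hmem h).1 hh
    rw [in_pd]
    exact (hmem _).2 ⟨_, hWB g hg j hj, rfl⟩
  have hnB' : ∀ h ∈ W', ∀ j, j ∉ B → (C (β j) + X j) * pderiv j h ∈ W' := by
    intro h hh j hj
    obtain ⟨g, hg, rfl⟩ := (hmem h).1 hh
    rw [in_pd]
    refine (hmem _).2 ⟨_, hWnB g hg j hj, ?_⟩
    rw [map_mul]
    congr 1
    unfold tr
    rw [aeval_X]
  obtain ⟨hV1, hV2⟩ := finrank_initS W'
  have hne : tr β F ≠ 0 := by
    intro h0
    apply hF0
    rw [← in_inv β F, h0, map_zero]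
  have hex : ∃ m, homogeneousComponent m (tr β F) ≠ 0 := by
    by_contra hcon
    push Not at hcon
    apply hne
    rw [← sum_homogeneousComponent (tr β F)]
    exact Finset.sum_eq_zero fun i _ => hcon i
  refine ⟨Nat.find hex, Submodule.span K (initS W'), hV1, ?_, ?_, ?_, Nat.find_spec hex, ?_⟩
  · refine hV2.trans (le_trans ?_ hWs)
    rw [hW']
    exact Submodule.finrank_map_le _ _
  · intro h hh j
    exact pderiv_mem_span_initS β hβ W' hB' hnB' h hh j
  · refine Submodule.subset_span ⟨Nat.find hex, tr β F, (hmem _).2 ⟨F, hFW, rfl⟩, fun k hk => ?_, rfl⟩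
    exact not_not.1 (Nat.find_min hex hk)
  · intro k hk
    exact not_not.1 (Nat.find_min hex hk)

end Pool.Agent.ORB
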