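import Pool.Agent.ORB.LeafM

/-!
# ORB: determinants of mixed leaves
-/

set_option autoImplicit false

namespace Pool.Agent.ORB

open MvPolynomial

variable {K : Type*} [Field K] {n : ℕ} {B : Finset (Fin n)}

private theorem leaf_sum {ι : Type*} {s : ℕ} (S : Finset ι) (g : ι → MvPolynomial (Fin n) K)
    (h : ∀ i ∈ S, MixedLeaf B s (g i)) : MixedLeaf B (S.card * s) (∑ i ∈ S, g i) := by
  classical
  induction S using Finset.induction_on with
  | empty => simpa using (MixedLeaf.zero (B := B) (K := K) (n := n))
  | insert a S ha ih =>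
    rw [Finset.sum_insert ha, Finset.card_insert_of_notMem ha]
    have h1 := (h a (Finset.mem_insert_self a S)).add (ih fun i hi => h i (Finset.mem_insert_of_mem hi))
    have e : (S.card + 1) * s = s + S.card * s := by ring
    rw [e]
    exact h1

private theorem leaf_prod {ι : Type*} {s : ℕ} (S : Finset ι) (g : ι → MvPolynomial (Fin n) K)
    (h : ∀ i ∈ S, MixedLeaf B s (g i)) : MixedLeaf B (s ^ S.card) (∏ i ∈ S, g i) := by
  classical
  induction S using Finset.induction_on with
  | empty => simpa using (MixedLeaf.one (B := B) (K := K) (n := n))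
  | insert a S ha ih =>
    rw [Finset.prod_insert ha, Finset.card_insert_of_notMem ha]
    have h1 := (h a (Finset.mem_insert_self a S)).mul (ih fun i hi => h i (Finset.mem_insert_of_mem hi))
    rw [pow_succ']
    exact h1

/- PLAN. `Matrix.det_apply`, the lemmas above: products of `M` entries (`s^M`), sign, sum over the
`M!` permutations (induction over a `Finset` for sums and products). -/
theorem MixedLeaf.det {s M : ℕ} (a : Matrix (Fin M) (Fin M) (MvPolynomial (Fin n) K))
    (ha : ∀ i j, MixedLeaf B s (a i j)) : MixedLeaf B (M.factorial * s ^ M) a.det := by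
  classical
  rw [Matrix.det_apply]
  have h1 : ∀ σ ∈ (Finset.univ : Finset (Equiv.Perm (Fin M))),
      MixedLeaf B (s ^ M) (Equiv.Perm.sign σ • ∏ i, a (σ i) i) := by
    intro σ _
    have h2 : MixedLeaf B (s ^ M) (∏ i, a (σ i) i) := by
      have := leaf_prod (B := B) (s := s) Finset.univ (fun i => a (σ i) i) (fun i _ => ha _ _)
      simpa using this
    rcases Int.units_eq_one_or (Equiv.Perm.sign σ) with h3 | h3
    · rw [h3, one_smul]
      exact h2
    · rw [h3, Units.neg_smul, one_smul]
      exact h2.neg
  have h4 := leaf_sum (B := B) Finset.univ _ h1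
  rwa [Finset.card_univ, Fintype.card_perm, Fintype.card_fin] at h4

end Pool.Agent.ORB
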