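import Pool.Agent.ORB.Curve
import Pool.Agent.ORB.Init
import Pool.Agent.ORB.Leaf
import Pool.Agent.ORB.H1

/-!
# ORB: the base generator hits mixed leaves in unknown coordinates
-/

set_option autoImplicit false

namespace Pool.Agent.ORB

open MvPolynomial

variable {K : Type*} [Field K] [CharZero K] {n : ℕ}

omit [CharZero K] in
/-- the chain rule for a linear substitution -/
private theorem bs_chain (A : Matrix (Fin n) (Fin n) K) (i : Fin n) (h : MvPolynomial (Fin n) K) :
    pderiv i (aff A 0 h) = ∑ j, C (A j i) * aff A 0 (pderiv j h) := by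
  classical
  have hX : ∀ k, aff A 0 (X k) = ∑ i, C (A k i) * X i := by
    intro k
    unfold aff
    rw [aeval_X, Pi.zero_apply, C_0, zero_add]
  have hd : ∀ k, pderiv i (aff A 0 (X k)) = C (A k i) := by
    intro k
    rw [hX, map_sum, Finset.sum_eq_single i]
    · rw [pderiv_C_mul, pderiv_X_self, mul_one]
    · intro b _ hb
      rw [pderiv_C_mul, pderiv_X_of_ne hb, mul_zero]
    · intro h
      exact absurd (Finset.mem_univ i) h
  induction h using MvPolynomial.induction_on with
  | C a =>
    simp only [pderiv_C, map_zero, mul_zero, Finset.sum_const_zero]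
    rw [algHom_C, algebraMap_eq, pderiv_C]
  | add p q hp hq =>
    simp only [map_add, hp, hq, mul_add, Finset.sum_add_distrib]
  | mul_X p k hp =>
    rw [map_mul, pderiv_mul, hp, hd]
    have h1 : ∀ j, C (A j i) * aff A 0 (pderiv j (p * X k)) =
        C (A j i) * aff A 0 (pderiv j p) * aff A 0 (X k) +
          (if j = k then aff A 0 p * C (A k i) else 0) := by
      intro j
      rw [pderiv_mul, map_add, map_mul, map_mul]
      by_cases hjk : j = k
      · subst hjk
        rw [if_pos rfl, pderiv_X_self, map_one]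
        ring
      · rw [if_neg hjk, pderiv_X_of_ne (Ne.symm hjk), map_zero]
        ring
    simp only [h1]
    rw [Finset.sum_add_distrib, Finset.sum_ite_eq' Finset.univ k, if_pos (Finset.mem_univ k),
      Finset.sum_mul]

omit [CharZero K] in
/-- an invertible linear substitution is injective -/
private theorem bs_inj (A : Matrix (Fin n) (Fin n) K) (hA : A.det ≠ 0) :
    Function.Injective (aff A (0 : Fin n → K)) := by
  have h : (aff A⁻¹ (0 : Fin n → K)).comp (aff A (0 : Fin n → K)) = AlgHom.id K _ := by
    apply MvPolynomial.algHom_ext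
    intro j
    rw [AlgHom.comp_apply, AlgHom.id_apply]
    have h1 : ∀ (A : Matrix (Fin n) (Fin n) K) (k : Fin n),
        aff A 0 (X k) = ∑ i, C (A k i) * X i := by
      intro A k
      unfold aff
      rw [aeval_X, Pi.zero_apply, C_0, zero_add]
    rw [h1, map_sum]
    simp only [map_mul, algHom_C, algebraMap_eq, h1, Finset.mul_sum]
    rw [Finset.sum_comm]
    have h2 : ∀ k : Fin n, ∑ i, C (A j i) * (C (A⁻¹ i k) * X k) =
        C ((A * A⁻¹) j k) * (X k : MvPolynomial (Fin n) K) := by
      intro k
      rw [Matrix.mul_apply, map_sum, Finset.sum_mul]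
      refine Finset.sum_congr rfl fun i _ => ?_
      rw [map_mul, mul_assoc]
    simp only [h2]
    rw [Matrix.mul_nonsing_inv A (isUnit_iff_ne_zero.2 hA), Finset.sum_eq_single j]
    · rw [Matrix.one_apply_eq, C_1, one_mul]
    · intro k _ hk
      rw [Matrix.one_apply_ne (Ne.symm hk), C_0, zero_mul]
    · intro h
      exact absurd (Finset.mem_univ j) h
  intro x y hxy
  have h1 := congrArg (fun g : MvPolynomial (Fin n) K →ₐ[K] MvPolynomial (Fin n) K => g x) h
  have h2 := congrArg (fun g : MvPolynomial (Fin n) K →ₐ[K] MvPolynomial (Fin n) K => g y) h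
  simp only [AlgHom.comp_apply, AlgHom.id_apply] at h1 h2
  rw [← h1, ← h2, hxy]

omit [CharZero K] in
private theorem bs_scale {k : ℕ} {φ : MvPolynomial (Fin n) K} (h : φ.IsHomogeneous k) (z : K)
    (y : Fin n → K) : eval (fun j => z * y j) φ = z ^ k * eval y φ := by
  rw [eval_eq', eval_eq', Finset.mul_sum]
  refine Finset.sum_congr rfl fun d hd => ?_
  have h1 : ∑ i, d i = k := by
    have h2 := h (mem_support_iff.1 hd)
    rw [← h2, Finsupp.weight_apply, Finsupp.sum_fintype]
    · refine Finset.sum_congr rfl fun i _ => ?_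
      simp
    · intro i
      simp
  have h2 : ∏ i, (z * y i) ^ d i = z ^ k * ∏ i, y i ^ d i := by
    simp only [mul_pow]
    rw [Finset.prod_mul_distrib, Finset.prod_pow_eq_pow_sum, h1]
  rw [h2]
  ring

omit [CharZero K] in
private theorem bs_eval (β y : Fin n → K) (z : K) (F : MvPolynomial (Fin n) K) :
    eval (fun j => β j + z * y j) F =
      ∑ k ∈ Finset.range ((tr β F).totalDegree + 1), z ^ k * eval y (homogeneousComponent k (tr β F)) := by
  have h1 : eval (fun j => β j + z * y j) F = eval (fun j => z * y j) (tr β F) := by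
    have h : (aeval (fun j => z * y j) : MvPolynomial (Fin n) K →ₐ[K] K).comp (tr β) =
        aeval (fun j => β j + z * y j) := by
      apply MvPolynomial.algHom_ext
      intro j
      rw [AlgHom.comp_apply, tr, aeval_X, aeval_X, map_add, aeval_X, aeval_C]
      rfl
    have h2 := congrArg (fun g : MvPolynomial (Fin n) K →ₐ[K] K => g F) h
    exact h2.symm
  rw [h1]
  conv_lhs => rw [← sum_homogeneousComponent (tr β F)]
  rw [map_sum]
  exact Finset.sum_congr rfl fun k _ => bs_scale (homogeneousComponent_isHomogeneous k _) z y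

/- PLAN. `exists_base` gives `u` with `β j = b j + (gpA A M j).eval u ≠ 0`. `exists_initial` gives `m`,
`V`. Let `ℓ = aff A 0` (substitution `y_j = ∑ A_ji x_i`, injective because `A.det ≠ 0`, not needed if
one shows `ℓ h ≠ 0` from invertibility), `V' = V.map ℓ` is closed under all `pderiv i` (chain rule:
`pderiv i (ℓ h) = ∑_j C (A j i) * ℓ (pderiv j h)`), so by `curve_ne_zero` (`D = s'`)
`aeval cv (ℓ h) ≠ 0` for `h = homogeneousComponent m (tr β F)`, i.e.
`q = aeval (gpA A M) h ≠ 0` in `K[t]`; choose `t : K` with `q.eval t ≠ 0`.  If `aeval (gam0 A b M) F = 0`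
then for all `z : K`: `0 = eval (β + z • y) F = ∑_k z^k * eval y (homogeneousComponent k (tr β F))`,
`y j = (gpA A M j).eval t` (`MvPolynomial.sum_homogeneousComponent`, `IsHomogeneous.eval`), so
(infinite field) the coefficient of `z^m` is `0`: contradiction. -/
theorem base_hit (A : Matrix (Fin n) (Fin n) K) (hA : A.det ≠ 0) (b : Fin n → K) (s M : ℕ)
    (hM : n * s ^ 2 ≤ M) (hM2 : n * 2 ^ 2 ≤ M) {B : Finset (Fin n)} {F : MvPolynomial (Fin n) K}
    (hF : MixedLeaf B s F) (hF0 : F ≠ 0) : aeval (gam0 A b M) F ≠ 0 := by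
  obtain ⟨u, hu⟩ := exists_base A hA b M hM2
  obtain ⟨m, V, hfd, hd, hV, hmem, hne, -⟩ :=
    exists_initial hF hF0 (fun j => b j + (gpA A M j).eval u) fun j _ => hu j
  obtain ⟨β, hβ⟩ : ∃ β : Fin n → K, β = fun j => b j + (gpA A M j).eval u := ⟨_, rfl⟩
  rw [← hβ] at hmem hne
  -- the polynomial in one variable is not zero
  have hq : aeval (gpA A M) (homogeneousComponent m (tr β F)) ≠ 0 := by
    have h1 : aeval (fun i : Fin n => cv K M (i + 1)) (aff A 0 (homogeneousComponent m (tr β F))) ≠ 0 := by
      refine curve_ne_zero n s M hM _ ?_ (V.map (aff A (0 : Fin n → K)).toLinearMap) ?_ ?_ ?_ ?_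
      · intro h0
        exact hne (bs_inj A hA (by rw [h0, map_zero]))
      · rintro _ ⟨h, hh, rfl⟩ i
        show pderiv i (aff A 0 h) ∈ _
        rw [bs_chain]
        refine Submodule.sum_mem _ fun j _ => ?_
        rw [← smul_eq_C_mul]
        exact Submodule.smul_mem _ _ ⟨_, hV h hh j, rfl⟩
      · infer_instance
      · exact (Submodule.finrank_map_le _ _).trans hd
      · exact ⟨_, hmem, rfl⟩
    have h2 : (aeval (fun i : Fin n => cv K M (i + 1)) : MvPolynomial (Fin n) K →ₐ[K] _).comp
        (aff A (0 : Fin n → K)) = aeval (gpA A M) := by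
      apply MvPolynomial.algHom_ext
      intro j
      rw [AlgHom.comp_apply, aff, aeval_X, aeval_X, Pi.zero_apply, C_0, zero_add, map_sum, gpA]
      refine Finset.sum_congr rfl fun i _ => ?_
      rw [map_mul, aeval_X, aeval_C]
      rfl
    have h3 := congrArg (fun g : MvPolynomial (Fin n) K →ₐ[K] Polynomial K =>
      g (homogeneousComponent m (tr β F))) h2
    simp only [AlgHom.comp_apply] at h3
    rw [← h3]
    exact h1
  obtain ⟨t, ht⟩ : ∃ t : K, (aeval (gpA A M) (homogeneousComponent m (tr β F))).eval t ≠ 0 := by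
    by_contra hcon
    push Not at hcon
    exact hq (Polynomial.funext fun x => by rw [hcon x, Polynomial.eval_zero])
  have hy : eval (fun j => (gpA A M j).eval t) (homogeneousComponent m (tr β F)) ≠ 0 := by
    have h2 : (Polynomial.aeval t : Polynomial K →ₐ[K] K).comp (aeval (gpA A M)) =
        aeval (fun j => (gpA A M j).eval t) := by
      apply MvPolynomial.algHom_ext
      intro j
      rw [AlgHom.comp_apply, aeval_X, aeval_X, Polynomial.coe_aeval_eq_eval]
    have h3 := congrArg (fun g : MvPolynomial (Fin n) K →ₐ[K] K =>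
      g (homogeneousComponent m (tr β F))) h2
    simp only [AlgHom.comp_apply, Polynomial.coe_aeval_eq_eval] at h3
    intro h4
    apply ht
    rw [h3]
    exact h4
  intro h0
  have hz : ∀ z : K, ∑ k ∈ Finset.range ((tr β F).totalDegree + 1),
      z ^ k * eval (fun j => (gpA A M j).eval t) (homogeneousComponent k (tr β F)) = 0 := by
    intro z
    rw [← bs_eval]
    have h2 : (aeval (![u, z, t] : Fin 3 → K) : MvPolynomial (Fin 3) K →ₐ[K] K).comp
        (aeval (gam0 A b M)) = aeval (fun j => β j + z * (gpA A M j).eval t) := by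
      apply MvPolynomial.algHom_ext
      intro j
      rw [AlgHom.comp_apply, aeval_X, aeval_X, gam0, map_add, map_add, map_mul, aeval_C, aeval_X,
        ← Polynomial.aeval_algHom_apply, ← Polynomial.aeval_algHom_apply, aeval_X, aeval_X, hβ]
      simp only [Polynomial.coe_aeval_eq_eval]
      rfl
    have h3 := congrArg (fun g : MvPolynomial (Fin n) K →ₐ[K] K => g F) h2
    simp only [AlgHom.comp_apply] at h3
    rw [h0, map_zero] at h3
    exact h3.symm
  have hP : (∑ k ∈ Finset.range ((tr β F).totalDegree + 1),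
      Polynomial.C (eval (fun j => (gpA A M j).eval t) (homogeneousComponent k (tr β F))) *
        Polynomial.X ^ k : Polynomial K) = 0 := by
    apply Polynomial.funext
    intro z
    rw [Polynomial.eval_finsetSum, Polynomial.eval_zero, ← hz z]
    refine Finset.sum_congr rfl fun k _ => ?_
    rw [Polynomial.eval_mul, Polynomial.eval_C, Polynomial.eval_pow, Polynomial.eval_X, mul_comm]
  have hm : m < (tr β F).totalDegree + 1 := by
    by_contra hcon
    exact hne (homogeneousComponent_eq_zero _ _ (by omega))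
  have hc := congrArg (fun p : Polynomial K => p.coeff m) hP
  simp only [Polynomial.finsetSum_coeff, Polynomial.coeff_C_mul_X_pow, Polynomial.coeff_zero] at hc
  rw [Finset.sum_ite_eq, if_pos (Finset.mem_range.2 hm)] at hc
  exact hy hc

/-- **(H1)** for mixed leaves -/
theorem leaf_H1 (A : Matrix (Fin n) (Fin n) K) (hA : A.det ≠ 0) (b : Fin n → K) (s M M0 Δ : ℕ)
    (hM : n * (M0.factorial * s ^ M0) ^ 2 ≤ M) (hM2 : n * 2 ^ 2 ≤ M) (B : Finset (Fin n)) :
    H1 (gpA A M) (gam0 A b M) 0 (Dc {g | MixedLeaf B s g} Δ) M0 := by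
  intro N hN a ha J hdet
  apply PhiP_of_aeval
  have h1 : ∀ i j, MixedLeaf B s (pderiv (J j) (a i)) := by
    intro i j
    obtain ⟨L, _, g, hg, hag⟩ := ha i
    rw [hag]
    exact (MixedLeaf.pd hg L).pderiv _
  rcases Nat.eq_zero_or_pos s with hs | hs
  · subst hs
    rcases Nat.eq_zero_or_pos N with h0 | h0
    · subst h0
      rw [Matrix.det_isEmpty, map_one]
      exact one_ne_zero
    · have h2 := MixedLeaf.det _ h1
      exfalso
      obtain ⟨W, hW1, hW2, hW3, _⟩ := h2
      rw [zero_pow (by omega), mul_zero, Nat.le_zero, Submodule.finrank_eq_zero] at hW2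
      rw [hW2, Submodule.mem_bot] at hW3
      exact hdet hW3
  · refine base_hit A hA b _ M ?_ hM2 (MixedLeaf.det _ h1) hdet
    refine le_trans (Nat.mul_le_mul_left _ (Nat.pow_le_pow_left ?_ _)) hM
    exact Nat.mul_le_mul (Nat.factorial_le hN) (Nat.pow_le_pow_right hs hN)

end Pool.Agent.ORB
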