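import Pool.Agent.ORB.Defs

/-!
# ORB: size of the hitting set
-/

set_option autoImplicit false

namespace Pool.Agent.ORB

/- PLAN. `Finset.card_image_le`, `Finset.card_product`, `Fintype.card_piFinset_const`. -/
theorem card_hittingSet (n M E R : ℕ) :
    (hittingSet n M E R).card ≤ (R + 1) ^ (3 + 2 * E) := by
  unfold hittingSet
  refine Finset.card_image_le.trans ?_
  rw [Finset.card_product, Finset.card_product, Fintype.card_piFinset_const,
    Fintype.card_piFinset_const, Finset.card_range]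
  rw [← pow_add, ← pow_add]
  exact le_of_eq (by congr 1; ring)

/- PLAN. `AA M (i+1) t ≤ M * (M! * (n * R + 1)^M)` for `t ≤ R` (`Nat.div_le_self`,
`Nat.pow_le_pow_left`), as in `Pool.Agent.Results.MP_e2be99_lc.BorderTopFanin`. -/
theorem bound_hittingSet (n M E R : ℕ) (x : Fin n → ℕ) (hx : x ∈ hittingSet n M E R) (i : Fin n) :
    x i ≤ (1 + (E + 1) * R) * (M * (M.factorial * (n * R + 1) ^ M)) := by
  have hAA : ∀ t, t ≤ R → AA M ((i : ℕ) + 1) t ≤ M * (M.factorial * (n * R + 1) ^ M) := by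
    intro t ht
    unfold AA
    calc ∑ r ∈ Finset.Icc 1 M, (M.factorial / r) * (((i : ℕ) + 1) * t) ^ r
        ≤ ∑ _r ∈ Finset.Icc 1 M, M.factorial * (n * R + 1) ^ M := by
          refine Finset.sum_le_sum fun r hr => ?_
          obtain ⟨h1, h2⟩ := Finset.mem_Icc.mp hr
          refine Nat.mul_le_mul (Nat.div_le_self _ _) ?_
          calc (((i : ℕ) + 1) * t) ^ r ≤ (n * R + 1) ^ r := by
                refine Nat.pow_le_pow_left ?_ r
                exact (Nat.mul_le_mul i.2 ht).trans (Nat.le_succ _)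
            _ ≤ (n * R + 1) ^ M := Nat.pow_le_pow_right (Nat.succ_pos _) h2
      _ = M * (M.factorial * (n * R + 1) ^ M) := by
          rw [Finset.sum_const, Nat.card_Icc]
          simp
  unfold hittingSet at hx
  obtain ⟨a, ha, rfl⟩ := Finset.mem_image.mp hx
  obtain ⟨h1, h2⟩ := Finset.mem_product.mp ha
  obtain ⟨h3, h4⟩ := Finset.mem_product.mp h2
  rw [Fintype.mem_piFinset] at h1 h3 h4
  have k1 : ∀ j, a.1 j ≤ R := fun j => Nat.lt_succ_iff.mp (Finset.mem_range.mp (h1 j))
  have k3 : ∀ j, a.2.1 j ≤ R := fun j => Nat.lt_succ_iff.mp (Finset.mem_range.mp (h3 j))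
  have k4 : ∀ j, a.2.2 j ≤ R := fun j => Nat.lt_succ_iff.mp (Finset.mem_range.mp (h4 j))
  set Q := M * (M.factorial * (n * R + 1) ^ M) with hQ
  unfold point
  calc AA M ((i : ℕ) + 1) (a.1 0) + a.1 1 * AA M ((i : ℕ) + 1) (a.1 2) +
        ∑ l, a.2.1 l * AA M ((i : ℕ) + 1) (a.2.2 l)
      ≤ Q + R * Q + ∑ _l : Fin E, R * Q := by
        refine Nat.add_le_add (Nat.add_le_add (hAA _ (k1 0))
          (Nat.mul_le_mul (k1 1) (hAA _ (k1 2)))) ?_
        exact Finset.sum_le_sum fun l _ => Nat.mul_le_mul (k3 l) (hAA _ (k4 l))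
    _ = (1 + (E + 1) * R) * Q := by
        rw [Finset.sum_const, Finset.card_univ, Fintype.card_fin, smul_eq_mul]
        ring

end Pool.Agent.ORB
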