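import Pool.Agent.ORB.CurveB

/-!
# ORB: a good base point
-/

set_option autoImplicit false

namespace Pool.Agent.ORB

open MvPolynomial

variable {K : Type*} [Field K] [CharZero K] {n : ℕ}

/- PLAN. For each `j` the affine form `G_j = C (b j) + ∑_i C (A j i) X_i` is nonzero (the row `A j`
is nonzero), in `span {1, G_j}` (closed, dimension `≤ 2`), so `aeval cv G_j ≠ 0` (`curve_ne_zero`,
`D = 2`); the product over `j` is a nonzero polynomial, which is nonzero at some `u : K`
(`Polynomial.funext`/infinite field). `aeval cv G_j = C (b j) + gpA A M j`. -/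
theorem exists_base (A : Matrix (Fin n) (Fin n) K) (hA : A.det ≠ 0) (b : Fin n → K) (M : ℕ)
    (hM : n * 2 ^ 2 ≤ M) : ∃ u : K, ∀ j, b j + (gpA A M j).eval u ≠ 0 := by
  classical
  have h1 : ∀ j, Polynomial.C (b j) + gpA A M j ≠ 0 := by
    intro j h0
    have h2 := affine_coeff (b j) (A j) (affine_cv (b j) (A j) M hM h0)
    exact hA (Matrix.det_eq_zero_of_row_eq_zero j h2)
  have h2 : (∏ j : Fin n, (Polynomial.C (b j) + gpA A M j)) ≠ 0 :=
    Finset.prod_ne_zero_iff.2 fun j _ => h1 j
  have h3 : ∃ u : K, (∏ j : Fin n, (Polynomial.C (b j) + gpA A M j)).eval u ≠ 0 := by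
    by_contra hcon
    push Not at hcon
    exact h2 (Polynomial.funext fun u => by rw [hcon u, Polynomial.eval_zero])
  obtain ⟨u, hu⟩ := h3
  refine ⟨u, fun j => ?_⟩
  rw [Polynomial.eval_prod, Finset.prod_ne_zero_iff] at hu
  have h4 := hu j (Finset.mem_univ j)
  rwa [Polynomial.eval_add, Polynomial.eval_C] at h4

end Pool.Agent.ORB
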