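import Pool.Agent.ORB.CvDef
import Pool.Agent.SPE.Alpha

/-!
# ORB: the curve hits polynomials with a small space of derivatives
-/

set_option autoImplicit false

namespace Pool.Agent.ORB

open MvPolynomial

variable {K : Type*} [Field K] [CharZero K] {n : ℕ}

/- PLAN. As `SPD.gamT_eval`/`SPE.AA_eval`, coefficientwise: the coefficient of `X^r`, `1 ≤ r ≤ M`, of
`SPD.gamT M a b` is `a b^(r-1) / r = M! i^r / r` (`Nat.cast_div`), the term `r = 0` is `0`. -/
theorem gamT_eq_cv (M i : ℕ) :
    SPD.gamT M (((M.factorial * i : ℕ)) : K) ((i : ℕ) : K) = cv K M i := by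
  unfold SPD.gamT cv
  have hsub : Finset.Icc 1 M ⊆ Finset.range (M + 1) := by
    intro r hr
    rw [Finset.mem_Icc] at hr
    rw [Finset.mem_range]
    omega
  rw [← Finset.sum_subset hsub]
  · refine Finset.sum_congr rfl fun r hr => ?_
    rw [Finset.mem_Icc] at hr
    have hr0 : (r : K) ≠ 0 := Nat.cast_ne_zero.2 (by omega)
    have hd : r ∣ M.factorial := Nat.dvd_factorial (by omega) hr.2
    congr 2
    obtain ⟨s, rfl⟩ : ∃ s, r = s + 1 := ⟨r - 1, by omega⟩
    rw [Nat.cast_mul, Nat.cast_mul, Nat.cast_div hd hr0, Nat.add_sub_cancel, Nat.cast_pow]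
    field_simp
    ring
  · intro r hr hr'
    have h0 : r = 0 := by
      rw [Finset.mem_range] at hr
      rw [Finset.mem_Icc] at hr'
      omega
    subst h0
    simp

/- PLAN. `SPD.order_space` and `SPD.aeval_gamT_ne_zero` exactly as in the proof of
`SPE.exists_alpha` (first part), then `gamT_eq_cv`. For `n = 0` the polynomial is a constant. -/
theorem curve_ne_zero (n D M : ℕ) (hM : n * D ^ 2 ≤ M) (G : MvPolynomial (Fin n) K) (hG : G ≠ 0)
    (V : Submodule K (MvPolynomial (Fin n) K)) (hV : ∀ h ∈ V, ∀ j, pderiv j h ∈ V)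
    (hfd : FiniteDimensional K V) (hd : Module.finrank K V ≤ D) (hGV : G ∈ V) :
    aeval (fun i : Fin n => cv K M (i + 1)) G ≠ 0 := by
  classical
  rcases Nat.eq_zero_or_pos n with hn | hn
  · subst hn
    rw [MvPolynomial.eq_C_of_isEmpty G] at hG ⊢
    rw [MvPolynomial.aeval_C]
    intro h0
    apply hG
    have h1 : coeff 0 G = 0 := by
      have h2 : (Polynomial.C (coeff 0 G) : Polynomial K) = 0 := h0
      exact Polynomial.C_eq_zero.1 h2
    rw [h1, MvPolynomial.C_0]
  · let a : Fin n → K := fun i => ((M.factorial * ((i : ℕ) + 1) : ℕ) : K)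
    let b : Fin n → K := fun i => (((i : ℕ) + 1 : ℕ) : K)
    have ha : ∀ i, a i ≠ 0 := fun i =>
      Nat.cast_ne_zero.2 (Nat.mul_ne_zero (Nat.factorial_ne_zero M) (Nat.succ_ne_zero _))
    have hb : ∀ i, b i ≠ 0 := fun i => Nat.cast_ne_zero.2 (Nat.succ_ne_zero _)
    have hinj : Function.Injective b := by
      intro i i' h
      have h1 : ((i : ℕ) + 1 : ℕ) = (i' : ℕ) + 1 := Nat.cast_injective h
      exact Fin.ext (by omega)
    have hcv : (fun i : Fin n => cv K M (i + 1)) = fun i => SPD.gamT M (a i) (b i) := by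
      funext i
      exact (gamT_eq_cv M ((i : ℕ) + 1)).symm
    rw [hcv]
    refine SPD.aeval_gamT_ne_zero a b G M ?_
    refine SPD.order_space a b ha hb hinj V hV G hGV hG M ?_
    rw [Fintype.card_fin]
    refine le_trans ?_ hM
    have h1 : ∑ k ∈ Finset.range (Module.finrank K V), k * (n - 1) ≤
        ∑ k ∈ Finset.range D, k * (n - 1) := Finset.sum_le_sum_of_subset (Finset.range_mono hd)
    have h2 : ∑ k ∈ Finset.range D, k * (n - 1) ≤ D * (D * (n - 1)) := by
      refine (Finset.sum_le_card_nsmul (Finset.range D) _ (D * (n - 1)) ?_).trans ?_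
      · intro k hk
        exact Nat.mul_le_mul_right _ (Finset.mem_range.1 hk).le
      · rw [Finset.card_range, smul_eq_mul]
    have h3 : Module.finrank K V - 1 ≤ D * D := by
      have : D ≤ D * D + 1 := by
        rcases Nat.eq_zero_or_pos D with h | h
        · omega
        · have := Nat.le_mul_of_pos_left D h
          omega
      omega
    calc _ ≤ D * D + D * (D * (n - 1)) := Nat.add_le_add h3 (h1.trans h2)
      _ = n * D ^ 2 := by
        obtain ⟨m, rfl⟩ : ∃ m, n = m + 1 := ⟨n - 1, by omega⟩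
        rw [Nat.add_sub_cancel]
        ring

end Pool.Agent.ORB
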