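import Pool.Agent.ORB.FaithA

/-!
# ORB: the generator with `k` seeds is faithful
-/

set_option autoImplicit false

namespace Pool.Agent.ORB

open MvPolynomial Pool.Agent.Helper5.D4

variable {K : Type*} [Field K] [CharZero K] {n : ℕ} {σ : Type*}

/-- transitivity of algebraic extensions, for subalgebras of a domain -/
private theorem faith_trans {k R : Type*} [Field k] [CommRing R] [IsDomain R] [Algebra k R]
    (A0 A1 : Subalgebra k R) (h : ∀ x ∈ A1, IsAlgebraic A0 x) (g : R) (hg : IsAlgebraic A1 g) :
    IsAlgebraic A0 g := by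
  obtain ⟨p, hp0, hp⟩ := hg
  let C : Subalgebra A0 R := Subalgebra.algebraicClosure A0 R
  have hle : ∀ x : A1, algebraMap A1 R x ∈ C := fun x => h x.1 x.2
  let ι : A1 →+* C := (algebraMap A1 R).codRestrict C hle
  have hι : Function.Injective ι := by
    intro x y hxy
    have h1 := congrArg (fun z : C => (z : R)) hxy
    exact Subtype.ext h1
  have h2 : IsAlgebraic C g := by
    refine ⟨p.map ι, ?_, ?_⟩
    · intro h0
      exact hp0 (Polynomial.map_injective ι hι (by rw [h0, Polynomial.map_zero]))
    · rw [← hp, Polynomial.aeval_def, Polynomial.aeval_def, Polynomial.eval₂_map]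
      rfl
  exact h2.restrictScalars A0

/- A transcendence basis of `T`, a nonzero minor of its Jacobian matrix, `algInd_PhiP` and
`faithful`. -/
theorem PhiP_faith (p : Fin n → Polynomial K) (hp : LinearIndependent K p)
    (γ : Fin n → MvPolynomial σ K) (k : ℕ) {N : ℕ} (T : Fin N → MvPolynomial (Fin n) K)
    (htr : ∀ c : Finset (Fin N), AlgebraicIndepOn K T (c : Set (Fin N)) → c.card ≤ k)
    (H : ∀ M ≤ k, ∀ e : Fin M → Fin N, ∀ J : Fin M → Fin n,
      (Matrix.of fun i j => pderiv (J j) (T (e i))).det ≠ 0 →
      aeval γ (Matrix.of fun i j => pderiv (J j) (T (e i))).det ≠ 0)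
    (g : MvPolynomial (Fin n) K) (hg : IsAlgebraic (Algebra.adjoin K (Set.range T)) g)
    (hg0 : g ≠ 0) : PhiP p γ k g ≠ 0 := by
  classical
  obtain ⟨b, hb, halg⟩ := exists_basis (k := K) T
  have hbk : b.card ≤ k := htr b hb
  let e : Fin b.card ≃ b := b.equivFin.symm
  have hb' : AlgebraicIndependent K (fun i : b => T i) := hb
  have hT0 : AlgebraicIndependent K (fun i : Fin b.card => T (e i)) := hb'.comp e e.injective
  obtain ⟨J, hJ⟩ := exists_jacobian_minor _ hT0
  have h1 := H b.card hbk (fun i => (e i : Fin N)) J hJ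
  have h2 := algInd_PhiP p hp γ (fun i : Fin b.card => T (e i)) J h1
  refine PhiP_mono p γ hbk ?_
  let T' : Option (Fin N) → MvPolynomial (Fin n) K := fun o => o.elim g T
  have himg : T' '' (some '' (b : Set (Fin N))) = T '' (b : Set (Fin N)) := by
    rw [Set.image_image]
    rfl
  refine faithful (k := K) (PhiP p γ b.card) T' (some '' (b : Set (Fin N))) ?_ ?_ g
    (Algebra.subset_adjoin ⟨none, rfl⟩) hg0
  · have hex : ∀ x : (some '' (b : Set (Fin N)) : Set (Option (Fin N))),
        ∃ j : Fin b.card, (x : Option (Fin N)) = some (e j : Fin N) := by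
      rintro ⟨_, i, hi, rfl⟩
      exact ⟨e.symm ⟨i, hi⟩, by rw [Equiv.apply_symm_apply]⟩
    choose f hf using hex
    have hfi : Function.Injective f := by
      intro x y hxy
      apply Subtype.ext
      rw [hf x, hf y, hxy]
    have h3 := h2.comp f hfi
    have h4 : (fun x : (some '' (b : Set (Fin N)) : Set (Option (Fin N))) =>
        PhiP p γ b.card (T' x)) =
        (fun i : Fin b.card => PhiP p γ b.card (T (e i))) ∘ f := by
      funext x
      show PhiP p γ b.card (T' x) = PhiP p γ b.card (T (e (f x)))
      rw [hf x]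
      rfl
    show AlgebraicIndependent K _
    have h5 : AlgebraicIndependent K (fun x : (some '' (b : Set (Fin N)) : Set (Option (Fin N))) =>
        PhiP p γ b.card (T' x)) := by
      rw [h4]
      exact h3
    exact h5
  · intro o
    rw [himg]
    cases o with
    | some i => exact halg i
    | none =>
      refine faith_trans _ _ ?_ g hg
      intro x hx
      have h3 : x ∈ (Subalgebra.algebraicClosure (Algebra.adjoin K (T '' (b : Set (Fin N))))
          (MvPolynomial (Fin n) K)).restrictScalars K := by
        refine (Algebra.adjoin_le ?_ : Algebra.adjoin K (Set.range T) ≤ _) hx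
        rintro _ ⟨i, rfl⟩
        exact halg i
      exact h3

end Pool.Agent.ORB
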