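import Pool.Agent.ORB.CvDef

/-!
# ORB: from the generator to the explicit points
-/

set_option autoImplicit false

namespace Pool.Agent.ORB

open MvPolynomial

variable {K : Type*} [Field K] {n : ℕ}

/-- the generator in the coordinates `x` -/
noncomputable def xpar (K : Type*) [Field K] (n M E : ℕ) (i : Fin n) :
    MvPolynomial (Fin 3 ⊕ (Fin E ⊕ Fin E)) K :=
  Polynomial.aeval (X (Sum.inl 0) : MvPolynomial (Fin 3 ⊕ (Fin E ⊕ Fin E)) K) (cv K M (i + 1)) +
    X (Sum.inl 1) *
      Polynomial.aeval (X (Sum.inl 2) : MvPolynomial (Fin 3 ⊕ (Fin E ⊕ Fin E)) K) (cv K M (i + 1)) +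
    ∑ l, X (Sum.inr (Sum.inl l)) *
      Polynomial.aeval (X (Sum.inr (Sum.inr l)) : MvPolynomial (Fin 3 ⊕ (Fin E ⊕ Fin E)) K)
        (cv K M (i + 1))

/- PLAN. Two algebra homs on `MvPolynomial (Fin n) K`, compare on `X j` (`MvPolynomial.algHom_ext`);
`rename` commutes with `Polynomial.aeval` (`Polynomial.aeval_algHom_apply`); `gpA` is a sum. -/
theorem aeval_xpar_aff (A : Matrix (Fin n) (Fin n) K) (b : Fin n → K) (M E : ℕ)
    (h : MvPolynomial (Fin n) K) :
    aeval (xpar K n M E) (aff A b h) = PhiP (gpA A M) (gam0 A b M) E h := by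
  have key : ((aeval (xpar K n M E)).comp (aff A b) : MvPolynomial (Fin n) K →ₐ[K] _) =
      PhiP (gpA A M) (gam0 A b M) E := by
    apply MvPolynomial.algHom_ext
    intro j
    have hg : ∀ (y : MvPolynomial (Fin 3 ⊕ (Fin E ⊕ Fin E)) K),
        Polynomial.aeval y (gpA A M j) =
          ∑ i : Fin n, C (A j i) * Polynomial.aeval y (cv K M (i + 1)) := by
      intro y
      unfold gpA
      rw [map_sum]
      exact Finset.sum_congr rfl fun i _ => by
        rw [map_mul, Polynomial.aeval_C, MvPolynomial.algebraMap_eq]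
    have hren : ∀ (k : Fin 3) (f : Polynomial K),
        rename (Sum.inl : Fin 3 → Fin 3 ⊕ (Fin E ⊕ Fin E)) (Polynomial.aeval (X k : MvPolynomial (Fin 3) K) f) =
          Polynomial.aeval (X (Sum.inl k) : MvPolynomial (Fin 3 ⊕ (Fin E ⊕ Fin E)) K) f := by
      intro k f
      rw [← Polynomial.aeval_algHom_apply, rename_X]
    have hL : aeval (xpar K n M E) (aff A b (X j)) = C (b j) + ∑ i, C (A j i) * xpar K n M E i := by
      unfold aff
      rw [aeval_X, map_add, map_sum, aeval_C, MvPolynomial.algebraMap_eq]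
      congr 1
      exact Finset.sum_congr rfl fun i _ => by
        rw [map_mul, aeval_C, aeval_X, MvPolynomial.algebraMap_eq]
    have hR : PhiP (gpA A M) (gam0 A b M) E (X j) = (C (b j) +
        ∑ i : Fin n, C (A j i) * Polynomial.aeval (X (Sum.inl 0) : MvPolynomial (Fin 3 ⊕ (Fin E ⊕ Fin E)) K)
          (cv K M (i + 1)) +
        X (Sum.inl 1) * ∑ i : Fin n, C (A j i) *
          Polynomial.aeval (X (Sum.inl 2) : MvPolynomial (Fin 3 ⊕ (Fin E ⊕ Fin E)) K) (cv K M (i + 1))) +
        ∑ l : Fin E, X (Sum.inr (Sum.inl l)) * ∑ i : Fin n, C (A j i) *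
          Polynomial.aeval (X (Sum.inr (Sum.inr l)) : MvPolynomial (Fin 3 ⊕ (Fin E ⊕ Fin E)) K)
            (cv K M (i + 1)) := by
      unfold PhiP
      rw [aeval_X]
      unfold gam0
      rw [map_add, map_add, map_mul, rename_C, rename_X, hren, hren, hg, hg]
      congr 1
      exact Finset.sum_congr rfl fun l _ => by rw [hg]
    rw [AlgHom.comp_apply, hL, hR]
    have hx : ∀ i : Fin n, C (A j i) * xpar K n M E i =
        C (A j i) * Polynomial.aeval (X (Sum.inl 0) : MvPolynomial (Fin 3 ⊕ (Fin E ⊕ Fin E)) K)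
          (cv K M (i + 1)) +
        X (Sum.inl 1) * (C (A j i) *
          Polynomial.aeval (X (Sum.inl 2) : MvPolynomial (Fin 3 ⊕ (Fin E ⊕ Fin E)) K) (cv K M (i + 1))) +
        ∑ l : Fin E, X (Sum.inr (Sum.inl l)) * (C (A j i) *
          Polynomial.aeval (X (Sum.inr (Sum.inr l)) : MvPolynomial (Fin 3 ⊕ (Fin E ⊕ Fin E)) K)
            (cv K M (i + 1))) := by
      intro i
      unfold xpar
      rw [mul_add, mul_add, Finset.mul_sum]
      congr 1
      · ring
      · exact Finset.sum_congr rfl fun l _ => by ring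
    rw [Finset.sum_congr rfl fun i _ => hx i, Finset.sum_add_distrib, Finset.sum_add_distrib, Finset.sum_comm]
    simp only [Finset.mul_sum]
    ring
  exact congrArg (fun g : MvPolynomial (Fin n) K →ₐ[K] _ => g h) key

end Pool.Agent.ORB
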