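import Pool.Agent.ORB.InitDef

/-!
# ORB: the initial forms span a space of the same dimension
-/

set_option autoImplicit false

namespace Pool.Agent.ORB

open MvPolynomial

variable {K : Type*} [Field K] {n : ℕ}

private theorem core (W : Submodule K (MvPolynomial (Fin n) K)) [FiniteDimensional K W] {ι : Type*}
    [Fintype ι] (v : ι → MvPolynomial (Fin n) K) (hv : ∀ i, v i ∈ initS W) (hli : LinearIndependent K v) :
    Fintype.card ι ≤ Module.finrank K W := by
  choose m h hW hlow hval using hv
  have h1 : LinearIndependent K h := by
    rw [Fintype.linearIndependent_iff]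
    intro g hg
    by_contra hcon
    push Not at hcon
    obtain ⟨i1, hi1⟩ := hcon
    classical
    obtain ⟨i0, hi0, hmin⟩ := (Finset.univ.filter (fun i => g i ≠ 0)).exists_min_image m
      ⟨i1, by simp [hi1]⟩
    have hg0 : g i0 ≠ 0 := (Finset.mem_filter.1 hi0).2
    have h2 := congrArg (homogeneousComponent (m i0)) hg
    rw [map_sum, map_zero] at h2
    have h3 : ∀ i, homogeneousComponent (m i0) (g i • h i) = (if m i = m i0 then g i else 0) • v i := by
      intro i
      rw [map_smul]
      by_cases hgi : g i = 0
      · rw [hgi, zero_smul, ite_self, zero_smul]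
      · have h4 := hmin i (by simp [hgi])
        by_cases hmi : m i = m i0
        · rw [if_pos hmi, hval i, hmi]
        · rw [if_neg hmi, hlow i (m i0) (lt_of_le_of_ne h4 (Ne.symm hmi)), smul_zero, zero_smul]
    rw [Finset.sum_congr rfl (fun i _ => h3 i)] at h2
    have h5 := (Fintype.linearIndependent_iff.1 hli) _ h2 i0
    rw [if_pos rfl] at h5
    exact hg0 h5
  have h2 : LinearIndependent K (fun i => (⟨h i, hW i⟩ : W)) := by
    apply LinearIndependent.of_comp W.subtype
    exact h1
  exact h2.fintype_card_le_finrank

/- PLAN. Claim: every linearly independent family `v : Fin r → _` with `v i ∈ initS W` has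
`r ≤ finrank W`. Choose `m i`, `h i ∈ W` with `v i = homogeneousComponent (m i) (h i)` and lower
components `0`. Then the `h i` are linearly independent: if `∑ c_i h_i = 0` with some `c_i ≠ 0`,
let `μ` be the least `m i` with `c_i ≠ 0`; the component `μ` of the sum is
`∑_{i : m i = μ} c_i v_i` (for `m i > μ` the component is `0`, for `m i < μ` `c_i = 0`), so `c_i = 0`
for `m i = μ`, contradiction (`linearIndependent_iff'`).  Hence `LinearIndependent.fintype_card_le_finrank`
in `W`.  A basis of `span (initS W)` inside `initS W` (`exists_linearIndependent K (initS W)`) is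
therefore finite with at most `finrank W` elements. -/
theorem finrank_initS (W : Submodule K (MvPolynomial (Fin n) K)) [FiniteDimensional K W] :
    FiniteDimensional K (Submodule.span K (initS W)) ∧
      Module.finrank K (Submodule.span K (initS W)) ≤ Module.finrank K W := by
  obtain ⟨b, hb, hspan, hli⟩ := exists_linearIndependent K (initS W)
  have hcard : ∀ t : Finset (MvPolynomial (Fin n) K), (t : Set (MvPolynomial (Fin n) K)) ⊆ b →
      t.card ≤ Module.finrank K W := by
    intro t ht
    have h1 := core W (fun i : t => (i : MvPolynomial (Fin n) K)) (fun i => hb (ht i.2))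
      (hli.comp (fun i : t => (⟨i, ht i.2⟩ : b)) (by
        intro i j hij
        exact Subtype.ext (congrArg (fun z : b => (z : MvPolynomial (Fin n) K)) hij)))
    simpa using h1
  have hfin : b.Finite := by
    by_contra hcon
    obtain ⟨t, ht, htc⟩ := Set.Infinite.exists_subset_card_eq hcon (Module.finrank K W + 1)
    have := hcard t ht
    omega
  have hb1 := hcard hfin.toFinset (by rw [Set.Finite.coe_toFinset])
  rw [← hspan]
  refine ⟨FiniteDimensional.span_of_finite K hfin, ?_⟩
  have h2 := finrank_span_finset_le_card (R := K) hfin.toFinset
  rw [Set.finrank, Set.Finite.coe_toFinset] at h2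
  exact h2.trans hb1

end Pool.Agent.ORB
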