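import Pool.Agent.ORB.Gate

/-!
# ORB: initial forms, definitions
-/

set_option autoImplicit false

namespace Pool.Agent.ORB

open MvPolynomial

variable {K : Type*} [Field K] {n : ℕ}

/-- the translation `y ↦ β + y` -/
noncomputable def tr (β : Fin n → K) : MvPolynomial (Fin n) K →ₐ[K] MvPolynomial (Fin n) K :=
  aeval fun j => C (β j) + X j

/-- the initial forms (lowest components, and zero) of the members of `W` -/
def initS (W : Submodule K (MvPolynomial (Fin n) K)) : Set (MvPolynomial (Fin n) K) :=
  {v | ∃ m, ∃ h ∈ W, (∀ k < m, homogeneousComponent k h = 0) ∧ v = homogeneousComponent m h}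

end Pool.Agent.ORB
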