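import Pool.Agent.ORB.LeafA

/-!
# ORB: products of mixed leaves
-/

set_option autoImplicit false

namespace Pool.Agent.ORB

open MvPolynomial

variable {K : Type*} [Field K] {n : ℕ} {B : Finset (Fin n)}

theorem MixedLeaf.mul {s₁ s₂ : ℕ} {g₁ g₂ : MvPolynomial (Fin n) K} (h₁ : MixedLeaf B s₁ g₁)
    (h₂ : MixedLeaf B s₂ g₂) : MixedLeaf B (s₁ * s₂) (g₁ * g₂) := by
  obtain ⟨W, hWf, hWs, hWg, hWB, hWn⟩ := h₁
  obtain ⟨V, hVf, hVs, hVg, hVB, hVn⟩ := h₂
  have hr : LinearMap.range (Submodule.mulMap W V) = W * V := Submodule.mulMap_range W V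
  refine ⟨W * V, ?_, ?_, Submodule.mul_mem_mul hWg hVg, ?_, ?_⟩
  · rw [← hr]
    infer_instance
  · rw [← hr]
    refine (LinearMap.finrank_range_le _).trans ?_
    rw [Module.finrank_tensorProduct]
    exact Nat.mul_le_mul hWs hVs
  · intro h hh j hj
    induction hh using Submodule.mul_induction_on' with
    | mem_mul_mem a ha b hb =>
      rw [Derivation.leibniz, smul_eq_mul, smul_eq_mul]
      refine Submodule.add_mem _ (Submodule.mul_mem_mul ha (hVB b hb j hj)) ?_
      rw [mul_comm b]
      exact Submodule.mul_mem_mul (hWB a ha j hj) hb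
    | add a _ b _ ha hb =>
      rw [map_add]
      exact Submodule.add_mem _ ha hb
  · intro h hh j hj
    induction hh using Submodule.mul_induction_on' with
    | mem_mul_mem a ha b hb =>
      have h1 : X j * MvPolynomial.pderiv j (a * b) =
          a * (X j * MvPolynomial.pderiv j b) + (X j * MvPolynomial.pderiv j a) * b := by
        rw [Derivation.leibniz, smul_eq_mul, smul_eq_mul]
        ring
      rw [h1]
      exact Submodule.add_mem _ (Submodule.mul_mem_mul ha (hVn b hb j hj))
        (Submodule.mul_mem_mul (hWn a ha j hj) hb)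
    | add a _ b _ ha hb =>
      rw [map_add, mul_add]
      exact Submodule.add_mem _ ha hb

end Pool.Agent.ORB
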